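import Mathlib

/-!
Approximate identities of projections, and the C*-algebra `A ⊗ K(H)`.
-/

open Filter Topology

namespace Pool.Agent.Helper94.AU

/-- `A` has an approximate identity (a net over a nonempty directed set) which consists of
projections. -/
def HasAU (A : Type) [NonUnitalCStarAlgebra A] : Prop :=
  ∃ (Λ : Type) (_ : Preorder Λ) (_ : IsDirected Λ (· ≤ ·)) (_ : Nonempty Λ) (e : Λ → A),
    (∀ i, IsIdempotentElem (e i) ∧ IsSelfAdjoint (e i)) ∧
    ∀ a : A, Tendsto (fun i => e i * a) atTop (𝓝 a) ∧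
      Tendsto (fun i => a * e i) atTop (𝓝 a)

/-- `A` has an increasing approximate identity which consists of projections. -/
def HasIncAU (A : Type) [NonUnitalCStarAlgebra A] : Prop :=
  ∃ (Λ : Type) (_ : Preorder Λ) (_ : IsDirected Λ (· ≤ ·)) (_ : Nonempty Λ) (e : Λ → A),
    (∀ i, IsIdempotentElem (e i) ∧ IsSelfAdjoint (e i)) ∧
    (∀ i j, i ≤ j → e i * e j = e i) ∧
    ∀ a : A, Tendsto (fun i => e i * a) atTop (𝓝 a) ∧
      Tendsto (fun i => a * e i) atTop (𝓝 a)

/-- `A` is `κ`-unital: there is a set `D` of at most `κ` elements such that every `a` is a limit of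
products `d * a` with `d ∈ D` (for instance a dense set if `A` has an approximate identity). -/
def CardUnital (A : Type) [NonUnitalCStarAlgebra A] (κ : Cardinal.{0}) : Prop :=
  ∃ D : Set A, Cardinal.mk D ≤ κ ∧ ∀ a : A, ∀ ε : ℝ, 0 < ε → ∃ d ∈ D, ‖d * a - a‖ < ε

/-- The structure says that `B` is the C*-algebra `A ⊗ K(H)`, where `K(H)` is the algebra of the
compact operators on the Hilbert space `H`: `T ξ η a` is the elementary tensor of `a` and of the
operator `ζ ↦ ⟪η, ζ⟫ ξ` of rank one, and the linear span of these elements is dense in `B`. -/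
structure Stabilization (A H B : Type) [NonUnitalCStarAlgebra A] [NormedAddCommGroup H]
    [InnerProductSpace ℂ H] [NonUnitalCStarAlgebra B] where
  T : H → H → A → B
  add_left : ∀ ξ ξ' η a, T (ξ + ξ') η a = T ξ η a + T ξ' η a
  smul_left : ∀ (z : ℂ) ξ η a, T (z • ξ) η a = z • T ξ η a
  add_arg : ∀ ξ η a b, T ξ η (a + b) = T ξ η a + T ξ η b
  smul_arg : ∀ (z : ℂ) ξ η a, T ξ η (z • a) = z • T ξ η a
  star_T : ∀ ξ η a, star (T ξ η a) = T η ξ (star a)
  mul_T : ∀ ξ η ζ ω a b, T ξ η a * T ζ ω b = inner ℂ η ζ • T ξ ω (a * b)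
  norm_T : ∀ ξ η a, ‖T ξ η a‖ = ‖ξ‖ * ‖η‖ * ‖a‖
  dense : Dense (Submodule.span ℂ {x : B | ∃ ξ η a, T ξ η a = x} : Set B)

end Pool.Agent.Helper94.AU
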