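import Pool.Agent.Helper94.AU.Polar

/-!
Joins of two projections `P, R` with `‖P R‖ < 1`.
-/

open Filter Topology

namespace Pool.Agent.Helper94.AU

variable {A : Type*} [NonUnitalCStarAlgebra A]

theorem pr_ww {c w : A} (hc : star w * w = c) (hw : w * c = w) : Pr (w * star w) := by
  constructor
  · change w * star w * (w * star w) = w * star w
    rw [mul_assoc, ← mul_assoc (star w), hc, ← mul_assoc, hw]
  · change star (w * star w) = w * star w
    simp

theorem join {P R : A} (hP : Pr P) (hR : Pr R) (h : ‖P * R‖ < 1) :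
    ∃ Q : A, Pr Q ∧ Q * P = P ∧ Q * R = R ∧ (∀ b : A, b * P = P → b * R = R → b * Q = Q) ∧
      (∀ b : A, b * P = 0 → b * R = 0 → b * Q = 0) := by
  have h1 : (R - P * R) * R = R - P * R := by
    rw [sub_mul, mul_assoc, hR.mul]
  have h2 : R - star (R - P * R) * (R - P * R) = star (P * R) * (P * R) := by
    have e1 : star (R - P * R) = R - R * P := by
      rw [star_sub, star_mul, hP.st, hR.st]
    have e2 : star (P * R) = R * P := by rw [star_mul, hP.st, hR.st]
    have e3 : R * P * (P * R) = R * P * R := by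
      rw [← mul_assoc, mul_assoc R P P, hP.mul]
    rw [e1, e2, e3, sub_mul, mul_sub, mul_sub, hR.mul, e3, ← mul_assoc]
    abel
  have h3 : ‖R - star (R - P * R) * (R - P * R)‖ ≤ ‖P * R‖ * ‖P * R‖ := by
    rw [h2, CStarRing.norm_star_mul_self]
  have h4 : ‖P * R‖ * ‖P * R‖ < 1 := by nlinarith [norm_nonneg (P * R)]
  obtain ⟨w, w1, w2, -, w3, w4, w5, -⟩ := polar hR h1 h4 h3
  have hPw : P * w = 0 := by
    apply w5
    rw [mul_sub, ← mul_assoc, hP.mul, sub_self]
  have hwP : star w * P = 0 := by
    have := congrArg star hPw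
    simpa [hP.st] using this
  have hpr := pr_ww w1 w2
  refine ⟨P + w * star w, ⟨?_, ?_⟩, ?_, ?_, ?_, ?_⟩
  · change (P + w * star w) * (P + w * star w) = P + w * star w
    rw [add_mul, mul_add, mul_add, hP.mul, ← mul_assoc P, hPw, mul_assoc w (star w) P, hwP,
      hpr.mul]
    simp
  · change star (P + w * star w) = P + w * star w
    rw [star_add, hP.st, hpr.st]
  · rw [add_mul, hP.mul, mul_assoc, hwP]
    simp
  · have e1 : R = (R - P * R) + P * R := by abel
    have e2 : w * star w * R = R - P * R := by
      calc w * star w * R = w * (star w * ((R - P * R) + P * R)) := by rw [← e1, mul_assoc]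
        _ = R - P * R := by
          rw [mul_add (star w), ← mul_assoc (star w) P R, hwP, zero_mul, add_zero, w3]
    rw [add_mul, e2]
    abel
  · intro b b1 b2
    have : b * w = w := w4 b (by rw [mul_sub, ← mul_assoc, b1, b2])
    rw [mul_add, b1, ← mul_assoc, this]
  · intro b b1 b2
    have : b * w = 0 := w5 b (by rw [mul_sub, ← mul_assoc, b1, b2, zero_mul, sub_zero])
    rw [mul_add, b1, ← mul_assoc, this]
    simp

end Pool.Agent.Helper94.AU
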