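import Pool.Agent.Helper94.AU.Tens
import Pool.Agent.Helper94.AU.Join
import Pool.Agent.Helper94.AU.Defs

/-!
The algebra `A` of functions on `X × X × ℕ`.
-/

open Filter Topology
open scoped ENNReal

namespace Pool.Agent.Helper94.AU

open ContinuousLinearMap

/-- bounded functions on `X × X × ℕ` with values in the operators on `F` -/
abbrev Big (X F : Type) [NormedAddCommGroup F] [InnerProductSpace ℂ F] [CompleteSpace F] : Type :=
  lp (fun _ : X × X × ℕ => F →L[ℂ] F) ∞

variable {X : Type} {E : Type} [NormedAddCommGroup E] [InnerProductSpace ℂ E] [CompleteSpace E]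
  (V : Vecs E)

/-- `a` is determined outside of `F`: row `x` and column `x` are given by the scalar `l x`. -/
structure Det (V : Vecs E) (a : X × X × ℕ → (E →L[ℂ] E)) (F : Finset X) (l : X → ℂ) : Prop where
  supp : ∀ x ∉ F, l x = 0
  row : ∀ x, ∀ y ∉ F, ∀ n, a (x, y, n) = l x • pj V.g
  col : ∀ y, ∀ x ∉ F, ∀ n, a (x, y, n) = l y • pj (V.f n)

theorem Det.mono {V : Vecs E} {a : X × X × ℕ → (E →L[ℂ] E)} {F G : Finset X} {l : X → ℂ} (h : Det V a F l)
    (hFG : F ⊆ G) : Det V a G l :=
  ⟨fun x hx => h.supp x fun h' => hx (hFG h'), fun x y hy => h.row x y fun h' => hy (hFG h'),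
    fun y x hx => h.col y x fun h' => hx (hFG h')⟩

/-- left tails -/
def TL (a : X × X × ℕ → (E →L[ℂ] E)) : Prop :=
  ∀ x y, Tendsto (fun n : ℕ => a (x, y, n) - pj V.g * a (x, y, n)) atTop (𝓝 0)

/-- right tails -/
def TR (a : X × X × ℕ → (E →L[ℂ] E)) : Prop :=
  ∀ x y, Tendsto (fun n : ℕ => a (x, y, n) - a (x, y, n) * pj V.g) atTop (𝓝 0)

theorem pjg_mul : pj V.g * pj V.g = pj V.g := pj_mul V.norm_g

theorem pjf_mul (n : ℕ) : pj (V.f n) * pj (V.f n) = pj (V.f n) := pj_mul (V.norm_f n)

theorem Pr_pjg : Pr (pj V.g) := ⟨pjg_mul V, pj_star V.g⟩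

theorem Pr_pjf (n : ℕ) : Pr (pj (V.f n)) := ⟨pjf_mul V n, pj_star (V.f n)⟩

theorem tendsto_pj : Tendsto (fun n => pj (V.f n)) atTop (𝓝 (pj V.g)) := by
  exact (pj_continuous.tendsto V.g).comp V.tendsto_f

/-- The `*`-algebra of the finitely determined functions. -/
noncomputable def NA (X : Type) (V : Vecs E) : NonUnitalStarSubalgebra ℂ (Big X E) where
  carrier := {a | (∃ F l, Det V (a : X × X × ℕ → (E →L[ℂ] E)) F l) ∧ TL V (a : X × X × ℕ → _) ∧
    TR V (a : X × X × ℕ → _)}
  zero_mem' := by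
    refine ⟨⟨∅, fun _ => 0, ⟨by simp, by simp, by simp⟩⟩, ?_, ?_⟩
    · intro x y; simp
    · intro x y; simp
  add_mem' := by
    rintro a b ⟨⟨F, l, hF⟩, ha1, ha2⟩ ⟨⟨G, k, hG⟩, hb1, hb2⟩
    classical
    have hF' := hF.mono (Finset.subset_union_left (s₂ := G))
    have hG' := hG.mono (Finset.subset_union_right (s₁ := F))
    refine ⟨⟨F ∪ G, fun x => l x + k x, ⟨?_, ?_, ?_⟩⟩, ?_, ?_⟩
    · intro x hx
      rw [hF'.supp x hx, hG'.supp x hx, add_zero]
    · intro x y hy n
      change a (x, y, n) + b (x, y, n) = _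
      rw [hF'.row x y hy n, hG'.row x y hy n, add_smul]
    · intro y x hx n
      change a (x, y, n) + b (x, y, n) = _
      rw [hF'.col y x hx n, hG'.col y x hx n, add_smul]
    · intro x y
      have := (ha1 x y).add (hb1 x y)
      rw [add_zero] at this
      refine this.congr fun n => ?_
      change _ = a (x, y, n) + b (x, y, n) - pj V.g * (a (x, y, n) + b (x, y, n))
      rw [mul_add]; abel
    · intro x y
      have := (ha2 x y).add (hb2 x y)
      rw [add_zero] at this
      refine this.congr fun n => ?_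
      change _ = a (x, y, n) + b (x, y, n) - (a (x, y, n) + b (x, y, n)) * pj V.g
      rw [add_mul]; abel
  mul_mem' := by
    rintro a b ⟨⟨F, l, hF⟩, ha1, ha2⟩ ⟨⟨G, k, hG⟩, hb1, hb2⟩
    classical
    have hF' := hF.mono (Finset.subset_union_left (s₂ := G))
    have hG' := hG.mono (Finset.subset_union_right (s₁ := F))
    have na : ∀ z, ‖a z‖ ≤ ‖a‖ := fun z => lp.norm_apply_le_norm ENNReal.top_ne_zero a z
    have nb : ∀ z, ‖b z‖ ≤ ‖b‖ := fun z => lp.norm_apply_le_norm ENNReal.top_ne_zero b z
    refine ⟨⟨F ∪ G, fun x => l x * k x, ⟨?_, ?_, ?_⟩⟩, ?_, ?_⟩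
    · intro x hx
      rw [hF'.supp x hx, zero_mul]
    · intro x y hy n
      change a (x, y, n) * b (x, y, n) = _
      rw [hF'.row x y hy n, hG'.row x y hy n, smul_mul_smul_comm, pjg_mul V]
    · intro y x hx n
      change a (x, y, n) * b (x, y, n) = _
      rw [hF'.col y x hx n, hG'.col y x hx n, smul_mul_smul_comm, pjf_mul V]
    · intro x y
      rw [tendsto_zero_iff_norm_tendsto_zero]
      have h1 := ((tendsto_zero_iff_norm_tendsto_zero).mp (ha1 x y)).mul_const ‖b‖
      rw [zero_mul] at h1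
      refine squeeze_zero (fun n => norm_nonneg _) (fun n => ?_) h1
      change ‖a (x, y, n) * b (x, y, n) - pj V.g * (a (x, y, n) * b (x, y, n))‖ ≤ _
      rw [← mul_assoc, ← sub_mul]
      refine (norm_mul_le _ _).trans ?_
      gcongr
      exact nb _
    · intro x y
      rw [tendsto_zero_iff_norm_tendsto_zero]
      have h1 := ((tendsto_zero_iff_norm_tendsto_zero).mp (hb2 x y)).const_mul ‖a‖
      rw [mul_zero] at h1
      refine squeeze_zero (fun n => norm_nonneg _) (fun n => ?_) h1
      change ‖a (x, y, n) * b (x, y, n) - a (x, y, n) * b (x, y, n) * pj V.g‖ ≤ _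
      rw [mul_assoc, ← mul_sub]
      refine (norm_mul_le _ _).trans ?_
      gcongr
      exact na _
  smul_mem' := by
    rintro z a ⟨⟨F, l, hF⟩, ha1, ha2⟩
    refine ⟨⟨F, fun x => z * l x, ⟨?_, ?_, ?_⟩⟩, ?_, ?_⟩
    · intro x hx
      rw [hF.supp x hx, mul_zero]
    · intro x y hy n
      change z • a (x, y, n) = _
      rw [hF.row x y hy n, smul_smul]
    · intro y x hx n
      change z • a (x, y, n) = _
      rw [hF.col y x hx n, smul_smul]
    · intro x y
      have := (ha1 x y).const_smul z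
      rw [smul_zero] at this
      refine this.congr fun n => ?_
      change _ = z • a (x, y, n) - pj V.g * (z • a (x, y, n))
      rw [mul_smul_comm, smul_sub]
    · intro x y
      have := (ha2 x y).const_smul z
      rw [smul_zero] at this
      refine this.congr fun n => ?_
      change _ = z • a (x, y, n) - (z • a (x, y, n)) * pj V.g
      rw [smul_mul_assoc, smul_sub]
  star_mem' := by
    rintro a ⟨⟨F, l, hF⟩, ha1, ha2⟩
    refine ⟨⟨F, fun x => star (l x), ⟨?_, ?_, ?_⟩⟩, ?_, ?_⟩
    · intro x hx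
      rw [hF.supp x hx, star_zero]
    · intro x y hy n
      change star (a (x, y, n)) = _
      rw [hF.row x y hy n, star_smul, pj_star]
    · intro y x hx n
      change star (a (x, y, n)) = _
      rw [hF.col y x hx n, star_smul, pj_star]
    · intro x y
      have := (ha2 x y).star
      rw [star_zero] at this
      refine this.congr fun n => ?_
      change _ = star (a (x, y, n)) - pj V.g * star (a (x, y, n))
      rw [star_sub, star_mul, pj_star]
    · intro x y
      have := (ha1 x y).star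
      rw [star_zero] at this
      refine this.congr fun n => ?_
      change _ = star (a (x, y, n)) - star (a (x, y, n)) * pj V.g
      rw [star_sub, star_mul, pj_star]

/-- the values of the projections of the approximate identity -/
noncomputable def pfun (F : Finset X) (m : ℕ) (z : X × X × ℕ) : E →L[ℂ] E := by
  classical
  exact if z.1 ∈ F then (if z.2.1 ∈ F then (if z.2.2 < m then 1 else pj V.g) else pj V.g)
    else (if z.2.1 ∈ F then pj (V.f z.2.2) else 0)

theorem Pr_pfun (F : Finset X) (m : ℕ) (z : X × X × ℕ) : Pr (pfun V F m z) := by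
  unfold pfun
  split_ifs
  · exact ⟨by change (1 : E →L[ℂ] E) * 1 = 1; simp, by change star (1 : E →L[ℂ] E) = 1; simp⟩
  · exact Pr_pjg V
  · exact Pr_pjg V
  · exact Pr_pjf V _
  · exact ⟨by change (0 : E →L[ℂ] E) * 0 = 0; simp, by change star (0 : E →L[ℂ] E) = 0; simp⟩

/-- the projections of the approximate identity in the big algebra -/
noncomputable def pbig (F : Finset X) (m : ℕ) : Big X E :=
  ⟨pfun V F m, memℓp_infty ⟨1, by
    rintro _ ⟨z, rfl⟩
    exact (Pr_pfun V F m z).norm_le⟩⟩

theorem pbig_apply (F : Finset X) (m : ℕ) (z : X × X × ℕ) : pbig V F m z = pfun V F m z := rfl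

theorem Pr_pbig (F : Finset X) (m : ℕ) : Pr (pbig V F m) := by
  constructor
  · change pbig V F m * pbig V F m = pbig V F m
    ext1
    funext z
    exact (Pr_pfun V F m z).mul
  · change star (pbig V F m) = pbig V F m
    ext1
    funext z
    exact (Pr_pfun V F m z).st

theorem pbig_mem (F : Finset X) (m : ℕ) : pbig V F m ∈ NA X V := by
  classical
  refine ⟨⟨F, fun x => if x ∈ F then 1 else 0, ⟨?_, ?_, ?_⟩⟩, ?_, ?_⟩
  · intro x hx
    simp [hx]
  · intro x y hy n
    rw [pbig_apply]
    by_cases hx : x ∈ F <;> simp [pfun, hx, hy]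
  · intro y x hx n
    rw [pbig_apply]
    by_cases hy : y ∈ F <;> simp [pfun, hx, hy]
  · intro x y
    by_cases hx : x ∈ F
    · refine tendsto_const_nhds.congr' ?_
      filter_upwards [eventually_ge_atTop m] with n hn
      rw [pbig_apply]
      by_cases hy : y ∈ F <;> simp [pfun, hx, hy, not_lt.mpr hn, pjg_mul V]
    · by_cases hy : y ∈ F
      · have h1 : Tendsto (fun n => pj (V.f n) - pj V.g * pj (V.f n)) atTop
            (𝓝 (pj V.g - pj V.g * pj V.g)) := (tendsto_pj V).sub (tendsto_const_nhds.mul (tendsto_pj V))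
        rw [pjg_mul V, sub_self] at h1
        refine h1.congr fun n => ?_
        rw [pbig_apply]
        simp [pfun, hx, hy]
      · refine tendsto_const_nhds.congr fun n => ?_
        rw [pbig_apply]
        simp [pfun, hx, hy]
  · intro x y
    by_cases hx : x ∈ F
    · refine tendsto_const_nhds.congr' ?_
      filter_upwards [eventually_ge_atTop m] with n hn
      rw [pbig_apply]
      by_cases hy : y ∈ F <;> simp [pfun, hx, hy, not_lt.mpr hn, pjg_mul V]
    · by_cases hy : y ∈ F
      · have h1 : Tendsto (fun n => pj (V.f n) - pj (V.f n) * pj V.g) atTop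
            (𝓝 (pj V.g - pj V.g * pj V.g)) := (tendsto_pj V).sub ((tendsto_pj V).mul tendsto_const_nhds)
        rw [pjg_mul V, sub_self] at h1
        refine h1.congr fun n => ?_
        rw [pbig_apply]
        simp [pfun, hx, hy]
      · refine tendsto_const_nhds.congr fun n => ?_
        rw [pbig_apply]
        simp [pfun, hx, hy]

/-- Approximation on finitely determined functions. -/
theorem approx_NA {a : Big X E} (ha : a ∈ NA X V) {ε : ℝ} (hε : 0 < ε) :
    ∃ (F₀ : Finset X) (m₀ : ℕ), ∀ F, F₀ ≤ F → ∀ m, m₀ ≤ m → ‖pbig V F m * a - a‖ ≤ ε := by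
  classical
  obtain ⟨⟨F₀, l, hF⟩, hL, -⟩ := ha
  -- a bound for the scalars
  set Lb : ℝ := ∑ x ∈ F₀, ‖l x‖ + 1 with hLb
  have hLb0 : 0 < Lb := by positivity
  have hLbx : ∀ x, ‖l x‖ ≤ Lb := by
    intro x
    by_cases hx : x ∈ F₀
    · have := Finset.single_le_sum (f := fun x => ‖l x‖) (fun i _ => norm_nonneg _) hx
      linarith
    · rw [hF.supp x hx, norm_zero]; positivity
  have h1 : ∀ᶠ n in atTop, ‖pj (V.f n) - pj V.g‖ < ε / Lb := by
    have := (Metric.tendsto_nhds.mp (tendsto_pj V)) (ε / Lb) (by positivity)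
    simpa [dist_eq_norm] using this
  have h2 : ∀ᶠ n in atTop, ∀ x ∈ F₀, ∀ y ∈ F₀, ‖a (x, y, n) - pj V.g * a (x, y, n)‖ < ε := by
    rw [Filter.eventually_all_finset]
    intro x _
    rw [Filter.eventually_all_finset]
    intro y _
    have := (Metric.tendsto_nhds.mp (hL x y)) ε hε
    simpa [dist_eq_norm] using this
  obtain ⟨m₀, hm₀⟩ := (h1.and h2).exists_forall_of_atTop
  refine ⟨F₀, m₀, fun F hFF m hm => ?_⟩
  apply lp.norm_le_of_forall_le hε.le
  rintro ⟨x, y, n⟩
  change ‖pfun V F m (x, y, n) * a (x, y, n) - a (x, y, n)‖ ≤ ε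
  by_cases hx : x ∈ F
  · by_cases hy : y ∈ F
    · by_cases hn : n < m
      · simp [pfun, hx, hy, hn, hε.le]
      · have e1 : pfun V F m (x, y, n) = pj V.g := by simp [pfun, hx, hy, hn]
        rw [e1]
        have hn' : m₀ ≤ n := hm.trans (not_lt.mp hn)
        by_cases hy0 : y ∈ F₀
        · by_cases hx0 : x ∈ F₀
          · rw [norm_sub_rev]
            exact ((hm₀ n hn').2 x hx0 y hy0).le
          · rw [hF.col y x hx0 n, mul_smul_comm, ← smul_sub, norm_smul]
            have e2 : pj V.g * pj (V.f n) - pj (V.f n) = (pj V.g - pj (V.f n)) * pj (V.f n) := by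
              rw [sub_mul, pjf_mul V]
            have e3 : ‖pj V.g * pj (V.f n) - pj (V.f n)‖ ≤ ε / Lb := by
              rw [e2]
              refine (norm_mul_le _ _).trans ?_
              rw [norm_sub_rev]
              calc ‖pj (V.f n) - pj V.g‖ * ‖pj (V.f n)‖ ≤ (ε / Lb) * 1 := by
                    gcongr
                    · exact (hm₀ n hn').1.le
                    · exact (Pr_pjf V n).norm_le
                _ = ε / Lb := mul_one _
            calc ‖l y‖ * ‖pj V.g * pj (V.f n) - pj (V.f n)‖ ≤ Lb * (ε / Lb) := by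
                  gcongr
                  exact hLbx y
              _ = ε := by field_simp
        · rw [hF.row x y hy0 n, mul_smul_comm, pjg_mul V, sub_self, norm_zero]
          exact hε.le
    · have e1 : pfun V F m (x, y, n) = pj V.g := by simp [pfun, hx, hy]
      have hy0 : y ∉ F₀ := fun h => hy (hFF h)
      rw [e1, hF.row x y hy0 n, mul_smul_comm, pjg_mul V, sub_self, norm_zero]
      exact hε.le
  · have hx0 : x ∉ F₀ := fun h => hx (hFF h)
    by_cases hy : y ∈ F
    · have e1 : pfun V F m (x, y, n) = pj (V.f n) := by simp [pfun, hx, hy]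
      rw [e1, hF.col y x hx0 n, mul_smul_comm, pjf_mul V, sub_self, norm_zero]
      exact hε.le
    · have hy0 : y ∉ F₀ := fun h => hy (hFF h)
      have e1 : pfun V F m (x, y, n) = 0 := by simp [pfun, hx, hy]
      rw [e1, hF.row x y hy0 n, hF.supp x hx0, zero_smul, mul_zero, sub_zero, norm_zero]
      exact hε.le

/-- The algebra `A`. -/
abbrev AA (X : Type) (V : Vecs E) : Type := ((NA X V).topologicalClosure : NonUnitalStarSubalgebra ℂ (Big X E))

noncomputable instance instAA : NonUnitalCStarAlgebra (AA X V) :=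
  NonUnitalStarSubalgebra.nonUnitalCStarAlgebra _
    (h_closed := NonUnitalStarSubalgebra.isClosed_topologicalClosure _)

/-- the projections in `A` -/
noncomputable def pA (i : Finset X × ℕ) : AA X V :=
  ⟨pbig V i.1 i.2, (NonUnitalStarSubalgebra.le_topologicalClosure _) (pbig_mem V i.1 i.2)⟩

theorem Pr_pA (i : Finset X × ℕ) : Pr (pA V i) := by
  constructor
  · change pA V i * pA V i = pA V i
    apply Subtype.ext
    exact (Pr_pbig V i.1 i.2).mul
  · change star (pA V i) = pA V i
    apply Subtype.ext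
    exact (Pr_pbig V i.1 i.2).st

theorem tendsto_pA (a : AA X V) : Tendsto (fun i => pA V i * a) atTop (𝓝 a) := by
  classical
  rw [Metric.tendsto_atTop]
  intro ε hε
  obtain ⟨b, hb, hab⟩ : ∃ b ∈ NA X V, dist (a : Big X E) b < ε / 4 := by
    have h1 : (a : Big X E) ∈ closure (NA X V : Set (Big X E)) := a.2
    exact Metric.mem_closure_iff.mp h1 (ε / 4) (by positivity)
  obtain ⟨F₀, m₀, h⟩ := approx_NA V hb (show 0 < ε / 4 by positivity)
  refine ⟨(F₀, m₀), fun i hi => ?_⟩
  have h1 := h i.1 hi.1 i.2 hi.2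
  rw [dist_eq_norm] at hab ⊢
  change ‖pbig V i.1 i.2 * (a : Big X E) - (a : Big X E)‖ < ε
  have h2 : ‖pbig V i.1 i.2 * ((a : Big X E) - b)‖ ≤ ‖(a : Big X E) - b‖ := by
    refine (norm_mul_le _ _).trans ?_
    have := (Pr_pbig V i.1 i.2).norm_le
    nlinarith [norm_nonneg ((a : Big X E) - b)]
  have h3 : pbig V i.1 i.2 * (a : Big X E) - (a : Big X E)
      = pbig V i.1 i.2 * ((a : Big X E) - b) + (pbig V i.1 i.2 * b - b) - ((a : Big X E) - b) := by
    rw [mul_sub]; abel
  rw [h3]
  calc ‖pbig V i.1 i.2 * ((a : Big X E) - b) + (pbig V i.1 i.2 * b - b) - ((a : Big X E) - b)‖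
      ≤ ‖pbig V i.1 i.2 * ((a : Big X E) - b) + (pbig V i.1 i.2 * b - b)‖ + ‖(a : Big X E) - b‖ :=
        norm_sub_le _ _
    _ ≤ ‖pbig V i.1 i.2 * ((a : Big X E) - b)‖ + ‖pbig V i.1 i.2 * b - b‖
        + ‖(a : Big X E) - b‖ := by
        gcongr
        exact norm_add_le _ _
    _ < ε := by linarith

theorem hasAU_AA : HasAU (AA X V) := by
  refine ⟨Finset X × ℕ, inferInstance, ?_, ⟨(∅, 0)⟩, pA V, Pr_pA V, fun a => ⟨tendsto_pA V a, ?_⟩⟩
  · classical infer_instance
  · have h1 : Tendsto (fun i => star (pA V i * star a)) atTop (𝓝 (star (star a))) :=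
      Tendsto.star (tendsto_pA V (star a))
    simpa [(fun i => (Pr_pA V i).st : ∀ i, star (pA V i) = pA V i)] using h1

end Pool.Agent.Helper94.AU
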