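import Pool.Agent.Helper94.AU.Tens

/-!
The Hilbert space `ℂ² ⊗ H` and the operators `a ⊗ |ξ⟩⟨η|` on it.
-/

open scoped ENNReal

namespace Pool.Agent.Helper94.AU.Fib

/-- `ℂ²` -/
abbrev C2 : Type := EuclideanSpace ℂ (Fin 2)

/-- `ℂ² ⊗ H` -/
abbrev Two (H : Type) [NormedAddCommGroup H] : Type := PiLp 2 (fun _ : Fin 2 => H)

variable {H : Type} [NormedAddCommGroup H] [InnerProductSpace ℂ H]

/-- `w ↦ w ⊗ ξ` -/
noncomputable def J (ξ : H) : C2 →L[ℂ] Two H :=
  LinearMap.toContinuousLinearMap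
    { toFun := fun w => WithLp.toLp 2 (fun i => w i • ξ)
      map_add' := by
        intro v w
        ext i
        simp [add_smul]
      map_smul' := by
        intro z w
        ext i
        simp [mul_smul] }

@[simp] theorem J_apply (ξ : H) (w : C2) (i : Fin 2) : (J ξ w) i = w i • ξ := rfl

theorem J_add (ξ η : H) : J (ξ + η) = J ξ + J η := by
  ext w i
  simp

theorem J_smul (z : ℂ) (ξ : H) : J (z • ξ) = z • J ξ := by
  ext w i
  rw [J_apply, smul_comm]
  rfl

theorem inner_J (ξ η : H) (w w' : C2) :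
    inner ℂ (J ξ w) (J η w') = inner ℂ w w' * inner ℂ ξ η := by
  have h : ∀ i, inner ℂ ((J ξ w) i) ((J η w') i) = inner ℂ (w i) (w' i) * inner ℂ ξ η := by
    intro i
    rw [J_apply, J_apply, inner_smul_left, inner_smul_right, RCLike.inner_apply]
    ring
  rw [PiLp.inner_apply, PiLp.inner_apply, Finset.sum_mul]
  exact Finset.sum_congr rfl fun i _ => h i

theorem norm_J (ξ : H) (w : C2) : ‖J ξ w‖ = ‖ξ‖ * ‖w‖ := by
  have h := inner_J ξ ξ w w
  rw [inner_self_eq_norm_sq_to_K, inner_self_eq_norm_sq_to_K, inner_self_eq_norm_sq_to_K] at h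
  have h2 : ‖J ξ w‖ ^ 2 = (‖ξ‖ * ‖w‖) ^ 2 := by
    have h3 : ‖J ξ w‖ ^ 2 = ‖w‖ ^ 2 * ‖ξ‖ ^ 2 := by exact_mod_cast h
    rw [h3]; ring
  exact (pow_left_inj₀ (norm_nonneg _) (by positivity) two_ne_zero).mp h2

/-- `ξ ↦ f ⊗ ξ` -/
noncomputable def I (f : C2) : H →L[ℂ] Two H :=
  LinearMap.mkContinuous
    { toFun := fun ξ => J ξ f
      map_add' := by
        intro ξ η
        rw [J_add]; rfl
      map_smul' := by
        intro z ξ
        rw [J_smul]; rfl } ‖f‖ (by
      intro ξ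
      change ‖J ξ f‖ ≤ _
      rw [norm_J, mul_comm])

theorem I_apply (f : C2) (ξ : H) : I f ξ = J ξ f := rfl

section complete

variable [CompleteSpace H]

open ContinuousLinearMap

theorem adj_J_J (ξ η : H) (w : C2) : adjoint (J ξ) (J η w) = (inner ℂ ξ η : ℂ) • w := by
  apply ext_inner_left ℂ
  intro v
  rw [adjoint_inner_right, inner_J, inner_smul_right]
  ring

theorem adj_I_J (f w : C2) (ξ : H) : adjoint (I f) (J ξ w) = (inner ℂ f w : ℂ) • ξ := by
  apply ext_inner_left ℂ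
  intro v
  rw [adjoint_inner_right, I_apply, inner_J, inner_smul_right]

/-- The concrete tensor product. -/
noncomputable def tens (H : Type) [NormedAddCommGroup H] [InnerProductSpace ℂ H]
    [CompleteSpace H] : Tens C2 H (Two H) where
  J := J
  I := I
  I_apply := fun w ξ => I_apply w ξ
  J_add := J_add
  J_smul := J_smul
  norm_J := norm_J
  adj_J_J := adj_J_J
  adj_I_J := fun f w ξ => adj_I_J f w ξ

end complete

end Pool.Agent.Helper94.AU.Fib
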