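import Mathlib

/-!
Choice of independent unit vectors near given ones, by recursion along a well-order.
-/

open Filter Topology Cardinal

namespace Pool.Agent.Helper94.AU

variable {H : Type} [NormedAddCommGroup H] [InnerProductSpace ℂ H]

theorem pick_exists (M : Submodule ℂ H) (hM : M ≠ ⊤) (v : H) (hv : ‖v‖ = 1) (ε : ℝ)
    (hε : 0 < ε) : ∃ ζ : H, ζ ∉ M ∧ ‖ζ‖ = 1 ∧ ‖ζ - v‖ < ε := by
  by_cases hvM : v ∈ M
  · obtain ⟨y, hy⟩ : ∃ y, y ∉ M := by
      by_contra h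
      push Not at h
      exact hM (Submodule.eq_top_iff'.mpr h)
    set f : ℝ → H := fun t => v + (t : ℂ) • y with hf
    have hfc : Continuous f := by fun_prop
    have hf0 : f 0 = v := by simp [hf]
    have hc : ContinuousAt (fun t : ℝ => (((‖f t‖)⁻¹ : ℝ) : ℂ) • f t) 0 := by
      have h1 : ContinuousAt (fun t : ℝ => (‖f t‖)⁻¹) 0 := by
        apply ContinuousAt.inv₀
        · exact hfc.norm.continuousAt
        · rw [hf0, hv]; norm_num
      exact (Complex.continuous_ofReal.continuousAt.comp h1).smul hfc.continuousAt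
    have h1 : ∀ᶠ t : ℝ in 𝓝 0, ‖(((‖f t‖)⁻¹ : ℝ) : ℂ) • f t - v‖ < ε := by
      have h2 : Tendsto (fun t : ℝ => (((‖f t‖)⁻¹ : ℝ) : ℂ) • f t) (𝓝 0) (𝓝 v) := by
        have := hc.tendsto
        simpa [hf0, hv] using this
      have h3 := (Metric.tendsto_nhds.mp h2) ε hε
      simpa [dist_eq_norm] using h3
    have h2 : ∀ᶠ t : ℝ in 𝓝[≠] 0, ‖(((‖f t‖)⁻¹ : ℝ) : ℂ) • f t - v‖ < ε :=
      h1.filter_mono nhdsWithin_le_nhds
    obtain ⟨t, ht1, ht2⟩ := (h2.and self_mem_nhdsWithin).exists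
    have ht3 : f t ∉ M := by
      intro h
      apply hy
      have h4 : (t : ℂ) • y ∈ M := by
        have := M.sub_mem h hvM
        simpa [hf] using this
      have h5 : (t : ℂ) ≠ 0 := by exact_mod_cast ht2
      have := M.smul_mem ((t : ℂ)⁻¹) h4
      rwa [smul_smul, inv_mul_cancel₀ h5, one_smul] at this
    have ht4 : f t ≠ 0 := fun h => ht3 (h ▸ M.zero_mem)
    have ht5 : ‖f t‖ ≠ 0 := norm_ne_zero_iff.mpr ht4
    refine ⟨(((‖f t‖)⁻¹ : ℝ) : ℂ) • f t, ?_, ?_, ht1⟩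
    · intro h
      apply ht3
      have := M.smul_mem ((‖f t‖ : ℝ) : ℂ) h
      rwa [smul_smul, ← Complex.ofReal_mul, mul_inv_cancel₀ ht5, Complex.ofReal_one, one_smul]
        at this
    · rw [norm_smul, Complex.norm_real, norm_inv, norm_norm, inv_mul_cancel₀ ht5]
  · exact ⟨v, hvM, hv, by simpa using hε⟩

open Classical in
/-- the choice -/
noncomputable def pick (M : Submodule ℂ H) (v : H) (ε : ℝ) : H :=
  if h : ∃ ζ : H, ζ ∉ M ∧ ‖ζ‖ = 1 ∧ ‖ζ - v‖ < ε then h.choose else 0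

theorem pick_spec (M : Submodule ℂ H) (hM : M ≠ ⊤) (v : H) (hv : ‖v‖ = 1) (ε : ℝ)
    (hε : 0 < ε) : pick M v ε ∉ M ∧ ‖pick M v ε‖ = 1 ∧ ‖pick M v ε - v‖ < ε := by
  have h := pick_exists M hM v hv ε hε
  rw [pick, dif_pos h]
  exact h.choose_spec

theorem exists_family {K : Type} (hK : #K ≤ Module.rank ℂ H) (v : K → H) (hv : ∀ k, ‖v k‖ = 1)
    (ε : K → ℝ) (hε : ∀ k, 0 < ε k) :
    ∃ (_ : LinearOrder K) (ξ : K → H), ∀ k, ‖ξ k‖ = 1 ∧ ‖ξ k - v k‖ < ε k ∧
      ξ k ∉ Submodule.span ℂ (ξ '' {l | l < k}) := by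
  classical
  obtain ⟨r, wo, hr⟩ := Cardinal.exists_ord_eq K
  let L : LinearOrder K := linearOrderOfSTO r
  have hlt : ∀ a b : K, a < b ↔ r a b := fun a b => Iff.rfl
  have hwf : WellFounded (fun a b : K => a < b) := wo.wf
  let F : (k : K) → ((l : K) → l < k → H) → H := fun k ih =>
    pick (Submodule.span ℂ (Set.range fun l : {l // l < k} => ih l.1 l.2)) (v k) (ε k)
  set ξ : K → H := hwf.fix F with hξ
  have hξe : ∀ k, ξ k = pick (Submodule.span ℂ (ξ '' {l | l < k})) (v k) (ε k) := by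
    intro k
    have h1 : ξ k = F k (fun l _ => ξ l) := by
      rw [hξ]
      exact hwf.fix_eq F k
    have h2 : (Set.range fun l : {l // l < k} => ξ l.1) = ξ '' {l | l < k} := by
      ext x
      simp
    rw [h1]
    simp only [F]
    rw [h2]
  refine ⟨L, ξ, fun k => ?_⟩
  have hcard : #({l : K | l < k}) < #K := by
    have h := Cardinal.card_typein_lt (r := r) k hr
    rwa [Ordinal.card_typein] at h
  have hne : Submodule.span ℂ (ξ '' {l | l < k}) ≠ ⊤ := by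
    intro h
    have h1 : Module.rank ℂ (Submodule.span ℂ (ξ '' {l | l < k})) ≤ #(ξ '' {l | l < k}) :=
      rank_span_le _
    rw [h, rank_top] at h1
    have h2 : #(ξ '' {l | l < k}) ≤ #({l : K | l < k}) := Cardinal.mk_image_le
    exact absurd (hK.trans (h1.trans h2)) (not_le.mpr hcard)
  obtain ⟨p1, p2, p3⟩ := pick_spec (Submodule.span ℂ (ξ '' {l | l < k})) hne (v k) (hv k) (ε k)
    (hε k)
  rw [← hξe k] at p1 p2 p3
  exact ⟨p2, p3, p1⟩

end Pool.Agent.Helper94.AU
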