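import Pool.Agent.Helper94.AU.Join
import Pool.Agent.Helper94.AU.Defs
import Pool.Agent.Helper94.AU.Pick

/-!
`A ⊗ K(H)` has an increasing approximate identity of projections as soon as `A` has an
approximate identity of projections and `A` is not larger than the Hamel dimension of `H`.
-/

open Filter Topology Cardinal

namespace Pool.Agent.Helper94.AU

variable {A H B : Type} [NonUnitalCStarAlgebra A] [NormedAddCommGroup H] [InnerProductSpace ℂ H]
  [NonUnitalCStarAlgebra B]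

/-- `Q` is the join of the projections `R k`, `k ∈ F`. -/
structure IsJoin {K : Type} (R : K → B) (F : Finset K) (Q : B) : Prop where
  pr : Pr Q
  ge : ∀ k ∈ F, Q * R k = R k
  le : ∀ b : B, (∀ k ∈ F, b * R k = R k) → b * Q = Q
  ann : ∀ b : B, (∀ k ∈ F, b * R k = 0) → b * Q = 0

namespace Stabilization

variable (S : Stabilization A H B)

include S

/-- linearity in the first variable -/
def L (η : H) (a : A) : H →ₗ[ℂ] B where
  toFun ξ := S.T ξ η a
  map_add' ξ ξ' := S.add_left ξ ξ' η a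
  map_smul' z ξ := S.smul_left z ξ η a

theorem sub_left (ξ ξ' η : H) (a : A) : S.T (ξ - ξ') η a = S.T ξ η a - S.T ξ' η a :=
  (S.L η a).map_sub ξ ξ'

/-- linearity in the third variable -/
def M (ξ η : H) : A →ₗ[ℂ] B where
  toFun a := S.T ξ η a
  map_add' a b := S.add_arg ξ η a b
  map_smul' z a := S.smul_arg z ξ η a

theorem sub_arg (ξ η : H) (a b : A) : S.T ξ η (a - b) = S.T ξ η a - S.T ξ η b :=
  (S.M ξ η).map_sub a b

theorem pr_T {ξ : H} (hξ : ‖ξ‖ = 1) {e : A} (he : Pr e) : Pr (S.T ξ ξ e) := by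
  have h : inner ℂ ξ ξ = (1 : ℂ) := by
    rw [inner_self_eq_norm_sq_to_K, hξ]; simp
  constructor
  · change S.T ξ ξ e * S.T ξ ξ e = S.T ξ ξ e
    rw [S.mul_T, h, one_smul, he.mul]
  · change star (S.T ξ ξ e) = S.T ξ ξ e
    rw [S.star_T, he.st]

theorem exists_join {K : Type} [LinearOrder K] (ξ : K → H) (e : K → A) (he : ∀ k, Pr (e k))
    (hξ : ∀ k, ‖ξ k‖ = 1) (hind : ∀ k, ξ k ∉ Submodule.span ℂ (ξ '' {l | l < k}))
    (F : Finset K) : ∃ Q : B, IsJoin (fun k => S.T (ξ k) (ξ k) (e k)) F Q := by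
  classical
  induction F using Finset.induction_on_max with
  | empty =>
    exact ⟨0, ⟨by change (0 : B) * 0 = 0; simp, by change star (0 : B) = 0; simp⟩,
      by simp, by simp, by simp⟩
  | insert a s hlt ih =>
    obtain ⟨Q, hQ⟩ := ih
    set N : Submodule ℂ H := Submodule.span ℂ (ξ '' (s : Set K)) with hN
    have hfin : FiniteDimensional ℂ N :=
      FiniteDimensional.span_of_finite ℂ ((Finset.finite_toSet s).image ξ)
    have haN : ξ a ∉ N := by
      intro h
      apply hind a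
      refine Submodule.span_mono (Set.image_mono ?_) h
      intro l hl
      exact hlt l hl
    set ξ' : H := N.starProjection (ξ a) with hξ'
    set ζ : H := ξ a - ξ' with hζ
    have hξN : ξ' ∈ N := by
      rw [hξ']
      exact Submodule.starProjection_apply_mem N (ξ a)
    have hζN : ∀ x ∈ N, inner ℂ ζ x = (0 : ℂ) := by
      intro x hx
      have h1 : ξ a - N.starProjection (ξ a) ∈ Nᗮ := N.sub_starProjection_mem_orthogonal (ξ a)
      exact N.inner_left_of_mem_orthogonal hx h1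
    have hζ0 : ζ ≠ 0 := by
      intro h
      apply haN
      have : ξ a = ξ' := sub_eq_zero.mp h
      rw [this]; exact hξN
    have hn : ‖ξ'‖ < 1 := by
      have h1 : ξ a = ξ' + ζ := by rw [hζ]; abel
      have h2 : ‖ξ' + ζ‖ * ‖ξ' + ζ‖ = ‖ξ'‖ * ‖ξ'‖ + ‖ζ‖ * ‖ζ‖ := by
        apply norm_add_sq_eq_norm_sq_add_norm_sq_of_inner_eq_zero (𝕜 := ℂ)
        rw [← inner_conj_symm, hζN ξ' hξN]
        simp
      rw [← h1, hξ a] at h2
      have h3 : 0 < ‖ζ‖ := norm_pos_iff.mpr hζ0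
      by_contra h4
      push Not at h4
      nlinarith
    have hQζ : ∀ (ω : H) (c : A), Q * S.T ζ ω c = 0 := by
      intro ω c
      have h1 : S.T ω ζ (star c) * Q = 0 := by
        apply hQ.ann
        intro k hk
        rw [S.mul_T, hζN (ξ k) (Submodule.subset_span ⟨k, hk, rfl⟩), zero_smul]
      have h2 := congrArg star h1
      simpa [S.star_T, hQ.pr.st] using h2
    have hlt1 : ‖Q * S.T (ξ a) (ξ a) (e a)‖ < 1 := by
      have h1 : S.T (ξ a) (ξ a) (e a) = S.T ξ' (ξ a) (e a) + S.T ζ (ξ a) (e a) := by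
        rw [← S.add_left, hζ]
        congr 1
        abel
      rw [h1, mul_add, hQζ, add_zero]
      calc ‖Q * S.T ξ' (ξ a) (e a)‖ ≤ ‖Q‖ * ‖S.T ξ' (ξ a) (e a)‖ := norm_mul_le _ _
        _ ≤ 1 * (‖ξ'‖ * 1 * 1) := by
          rw [S.norm_T, hξ a]
          gcongr
          · exact hQ.pr.norm_le
          · exact (he a).norm_le
        _ < 1 := by simpa using hn
    obtain ⟨Q', q1, q2, q3, q4, q5⟩ := join hQ.pr (S.pr_T (hξ a) (he a)) hlt1
    refine ⟨Q', q1, ?_, ?_, ?_⟩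
    · intro k hk
      rcases Finset.mem_insert.mp hk with rfl | hk
      · exact q3
      · have h1 := hQ.ge k hk
        calc Q' * S.T (ξ k) (ξ k) (e k) = Q' * (Q * S.T (ξ k) (ξ k) (e k)) := by rw [h1]
          _ = S.T (ξ k) (ξ k) (e k) := by rw [← mul_assoc, q2, h1]
    · intro b hb
      exact q4 b (hQ.le b fun k hk => hb k (Finset.mem_insert_of_mem hk))
        (hb a (Finset.mem_insert_self a s))
    · intro b hb
      exact q5 b (hQ.ann b fun k hk => hb k (Finset.mem_insert_of_mem hk))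
        (hb a (Finset.mem_insert_self a s))


/-- The increasing net of joins. -/
theorem exists_net (hA : HasAU A) (hinf : ℵ₀ ≤ Module.rank ℂ H) (D : Set A)
    (hD : #D ≤ Module.rank ℂ H) :
    ∃ (K : Type) (J : Finset K → B), (∀ F, Pr (J F)) ∧ (∀ F G, F ≤ G → J F * J G = J F) ∧
      ∃ G : Submodule ℂ B, IsClosed (G : Set B) ∧
        (∀ b ∈ G, Tendsto (fun F => J F * b) atTop (𝓝 b)) ∧
        ∀ a : A, (∀ ε : ℝ, 0 < ε → ∃ d ∈ D, ‖d * a - a‖ < ε) → ∀ ζ η : H, S.T ζ η a ∈ G := by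
  classical
  obtain ⟨Λ, i1, i2, i3, p, hp, hpA⟩ := hA
  -- a Hamel basis of `H`
  set bs := Module.Basis.ofVectorSpace ℂ H with hbs
  have hbr : #(Module.Basis.ofVectorSpaceIndex ℂ H) = Module.rank ℂ H := bs.mk_eq_rank''
  have hb0 : ∀ i, ‖bs i‖ ≠ 0 := fun i => norm_ne_zero_iff.mpr (bs.ne_zero i)
  set K := D × (Module.Basis.ofVectorSpaceIndex ℂ H × ℕ) with hK
  have hKc : #K ≤ Module.rank ℂ H := by
    have h1 : #K = #D * (#(Module.Basis.ofVectorSpaceIndex ℂ H) * ℵ₀) := by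
      simp [hK, Cardinal.mk_prod]
    rw [h1, hbr]
    calc #D * (Module.rank ℂ H * ℵ₀) ≤ Module.rank ℂ H * (Module.rank ℂ H * Module.rank ℂ H) := by
          gcongr
      _ = Module.rank ℂ H := by
          rw [Cardinal.mul_eq_self hinf, Cardinal.mul_eq_self hinf]
  obtain ⟨lo, ξ, hξ⟩ := exists_family hKc
    (fun k => ((‖bs k.2.1‖⁻¹ : ℝ) : ℂ) • bs k.2.1)
    (by
      intro k
      rw [norm_smul, Complex.norm_real, norm_inv, norm_norm, inv_mul_cancel₀ (hb0 _)])
    (fun k => 1 / ((k.2.2 : ℝ) + 1)) (fun k => by positivity)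
  have he : ∀ k : K, ∃ e : A, Pr e ∧ ‖e * k.1.1 - k.1.1‖ < 1 / ((k.2.2 : ℝ) + 1) := by
    intro k
    have h1 := (hpA k.1.1).1
    rw [Metric.tendsto_nhds] at h1
    obtain ⟨i, hi⟩ := (h1 (1 / ((k.2.2 : ℝ) + 1)) (by positivity)).exists
    exact ⟨p i, hp i, by simpa [dist_eq_norm] using hi⟩
  choose e he1 he2 using he
  have hj : ∀ F : Finset K, ∃ Q : B, IsJoin (fun k => S.T (ξ k) (ξ k) (e k)) F Q :=
    fun F => S.exists_join ξ e he1 (fun k => (hξ k).1) (fun k => (hξ k).2.2) F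
  choose J hJ using hj
  have hmono : ∀ F G : Finset K, F ⊆ G → J G * J F = J F := by
    intro F G hFG
    exact (hJ F).le (J G) fun k hk => (hJ G).ge k (hFG hk)
  have hmono2 : ∀ F G : Finset K, F ≤ G → J F * J G = J F := by
    intro F G hFG
    have := congrArg star (hmono F G hFG)
    simpa [(hJ F).pr.st, (hJ G).pr.st] using this
  have hnorm : ∀ (F : Finset K) (b : B), ‖J F * b‖ ≤ ‖b‖ := by
    intro F b
    refine (norm_mul_le _ _).trans ?_
    have := (hJ F).pr.norm_le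
    nlinarith [norm_nonneg b]
  -- the good elements
  let G : Submodule ℂ B :=
    { carrier := {b | Tendsto (fun F : Finset K => J F * b) atTop (𝓝 b)}
      zero_mem' := by simp
      add_mem' := by
        intro b b' hb hb'
        simp only [Set.mem_ofPred_eq] at hb hb' ⊢
        simpa [mul_add] using hb.add hb'
      smul_mem' := by
        intro z b hb
        simp only [Set.mem_ofPred_eq] at hb ⊢
        simpa [mul_smul_comm] using hb.const_smul z }
  have hGmem : ∀ b : B, b ∈ G ↔ ∀ ε : ℝ, 0 < ε → ∃ F₀ : Finset K, ∀ F, F₀ ≤ F →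
      ‖J F * b - b‖ < ε := by
    intro b
    change Tendsto (fun F : Finset K => J F * b) atTop (𝓝 b) ↔ _
    rw [Metric.tendsto_atTop]
    simp only [dist_eq_norm, ge_iff_le]
  have hGcl : IsClosed (G : Set B) := by
    rw [← closure_subset_iff_isClosed]
    intro b hb
    change b ∈ G
    rw [hGmem]
    intro ε hε
    obtain ⟨b', hb', hbb⟩ := Metric.mem_closure_iff.mp hb (ε / 3) (by positivity)
    obtain ⟨F₀, hF⟩ := (hGmem b').mp hb' (ε / 3) (by positivity)
    refine ⟨F₀, fun F hFF => ?_⟩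
    have h1 := hF F hFF
    have h2 : ‖J F * (b - b')‖ ≤ ‖b - b'‖ := hnorm F _
    rw [dist_eq_norm] at hbb
    have h3 : J F * b - b = J F * (b - b') + (J F * b' - b') - (b - b') := by
      rw [mul_sub]; abel
    rw [h3]
    calc ‖J F * (b - b') + (J F * b' - b') - (b - b')‖
        ≤ ‖J F * (b - b') + (J F * b' - b')‖ + ‖b - b'‖ := norm_sub_le _ _
      _ ≤ ‖J F * (b - b')‖ + ‖J F * b' - b'‖ + ‖b - b'‖ := by
          gcongr
          exact norm_add_le _ _
      _ < ε := by linarith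
  have hGv : ∀ (i : Module.Basis.ofVectorSpaceIndex ℂ H) (η : H) (a : A)
      (_ : ∀ ε : ℝ, 0 < ε → ∃ d ∈ D, ‖d * a - a‖ < ε),
      S.T (((‖bs i‖⁻¹ : ℝ) : ℂ) • bs i) η a ∈ G := by
    intro i η a hu
    rw [hGmem]
    intro ε hε
    set v : H := ((‖bs i‖⁻¹ : ℝ) : ℂ) • bs i with hv
    have hv1 : ‖v‖ = 1 := by
      rw [hv, norm_smul, Complex.norm_real, norm_inv, norm_norm, inv_mul_cancel₀ (hb0 _)]
    obtain ⟨d, hdD, hd⟩ := hu (ε / (6 * (‖η‖ + 1))) (by positivity)
    -- choose `n`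
    set C : ℝ := ‖η‖ * (‖a‖ + ‖d‖ * ‖a‖ + 1) + 1 with hC
    have hC0 : 0 < C := by positivity
    obtain ⟨n, hn⟩ := exists_nat_one_div_lt (show (0 : ℝ) < ε / (6 * C) by positivity)
    set k : K := (⟨d, hdD⟩, (i, n)) with hk
    refine ⟨{k}, fun F hF => ?_⟩
    have hkF : k ∈ F := hF (Finset.mem_singleton_self k)
    have h1 : ‖ξ k - v‖ < 1 / ((n : ℝ) + 1) := (hξ k).2.1
    have h2 : ‖e k * d - d‖ < 1 / ((n : ℝ) + 1) := he2 k
    set b' : B := S.T (ξ k) η (e k * (d * a)) with hb'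
    have h3 : J F * b' = b' := by
      have h4 : b' = S.T (ξ k) (ξ k) (e k) * S.T (ξ k) η (d * a) := by
        rw [S.mul_T, inner_self_eq_norm_sq_to_K, (hξ k).1]
        simp [hb']
      rw [h4, ← mul_assoc]
      have := (hJ F).ge k hkF
      rw [this]
    have h4 : S.T v η a - b' = S.T v η (a - d * a) + S.T v η (d * a - e k * (d * a))
        + S.T (v - ξ k) η (e k * (d * a)) := by
      rw [S.sub_arg, S.sub_arg, S.sub_left, hb']
      abel
    have h5 : ‖S.T v η a - b'‖ < ε / 2 := by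
      have e1 : ‖S.T v η (a - d * a)‖ ≤ ‖η‖ * (ε / (6 * (‖η‖ + 1))) := by
        rw [S.norm_T, hv1, one_mul]
        gcongr
        rw [norm_sub_rev]
        exact hd.le
      have e1' : ‖η‖ * (ε / (6 * (‖η‖ + 1))) ≤ ε / 6 := by
        rw [mul_div_assoc', div_le_div_iff₀ (by positivity) (by norm_num)]
        nlinarith [norm_nonneg η]
      have e2 : ‖S.T v η (d * a - e k * (d * a))‖ ≤ ‖η‖ * (1 / ((n : ℝ) + 1) * ‖a‖) := by
        rw [S.norm_T, hv1, one_mul]
        gcongr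
        have : d * a - e k * (d * a) = -((e k * d - d) * a) := by
          rw [sub_mul, mul_assoc]; abel
        rw [this, norm_neg]
        refine (norm_mul_le _ _).trans ?_
        gcongr
      have e3 : ‖S.T (v - ξ k) η (e k * (d * a))‖ ≤ 1 / ((n : ℝ) + 1) * ‖η‖ * (‖d‖ * ‖a‖) := by
        rw [S.norm_T]
        gcongr
        · rw [norm_sub_rev]; exact h1.le
        · refine (norm_mul_le _ _).trans ?_
          have e4 := (he1 k).norm_le
          have e5 : ‖d * a‖ ≤ ‖d‖ * ‖a‖ := norm_mul_le _ _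
          calc ‖e k‖ * ‖d * a‖ ≤ 1 * (‖d‖ * ‖a‖) := by gcongr
            _ = ‖d‖ * ‖a‖ := one_mul _
      have e6 : ‖η‖ * (1 / ((n : ℝ) + 1) * ‖a‖) + 1 / ((n : ℝ) + 1) * ‖η‖ * (‖d‖ * ‖a‖)
          ≤ 1 / ((n : ℝ) + 1) * C := by
        have : ‖η‖ * (1 / ((n : ℝ) + 1) * ‖a‖) + 1 / ((n : ℝ) + 1) * ‖η‖ * (‖d‖ * ‖a‖)
            = 1 / ((n : ℝ) + 1) * (‖η‖ * (‖a‖ + ‖d‖ * ‖a‖)) := by ring
        rw [this]
        gcongr
        rw [hC]
        nlinarith [norm_nonneg η]
      have e7 : 1 / ((n : ℝ) + 1) * C < ε / 6 := by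
        calc 1 / ((n : ℝ) + 1) * C < ε / (6 * C) * C := by gcongr
          _ = ε / 6 := by field_simp
      rw [h4]
      calc ‖S.T v η (a - d * a) + S.T v η (d * a - e k * (d * a))
            + S.T (v - ξ k) η (e k * (d * a))‖
          ≤ ‖S.T v η (a - d * a)‖ + ‖S.T v η (d * a - e k * (d * a))‖
            + ‖S.T (v - ξ k) η (e k * (d * a))‖ := norm_add₃_le
        _ < ε / 2 := by linarith
    have h6 : J F * S.T v η a - S.T v η a
        = J F * (S.T v η a - b') - (S.T v η a - b') := by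
      rw [mul_sub, h3]; abel
    rw [h6]
    calc ‖J F * (S.T v η a - b') - (S.T v η a - b')‖
        ≤ ‖J F * (S.T v η a - b')‖ + ‖S.T v η a - b'‖ := norm_sub_le _ _
      _ ≤ ‖S.T v η a - b'‖ + ‖S.T v η a - b'‖ := by gcongr; exact hnorm F _
      _ < ε := by linarith
  refine ⟨K, J, fun F => (hJ F).pr, hmono2, G, hGcl, fun b hb => hb, ?_⟩
  intro a ha ζ η
  have h1 : Submodule.span ℂ (Set.range bs) ≤ G.comap (S.L η a) := by
    rw [Submodule.span_le]
    rintro _ ⟨i, rfl⟩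
    change S.T (bs i) η a ∈ G
    have h2 : bs i = ((‖bs i‖ : ℝ) : ℂ) • (((‖bs i‖⁻¹ : ℝ) : ℂ) • bs i) := by
      rw [smul_smul, ← Complex.ofReal_mul, mul_inv_cancel₀ (hb0 i), Complex.ofReal_one,
        one_smul]
    rw [h2, S.smul_left]
    exact G.smul_mem _ (hGv i η a ha)
  rw [bs.span_eq] at h1
  exact h1 (Submodule.mem_top (x := ζ))

/-- Increasing approximate identities, with the Hamel dimension of `H`. -/
theorem hasIncAU_of_rank (hA : HasAU A) (hinf : ℵ₀ ≤ Module.rank ℂ H) (D : Set A)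
    (hD : #D ≤ Module.rank ℂ H) (hu : ∀ a : A, ∀ ε : ℝ, 0 < ε → ∃ d ∈ D, ‖d * a - a‖ < ε) :
    HasIncAU B := by
  classical
  obtain ⟨K, J, hJ, hmono2, G, hGcl, hG, hGT⟩ := S.exists_net hA hinf D hD
  have hGtop : ∀ b : B, b ∈ G := by
    intro b
    have h1 : (Submodule.span ℂ {x : B | ∃ ξ η a, S.T ξ η a = x} : Set B) ⊆ G := by
      have : Submodule.span ℂ {x : B | ∃ ξ η a, S.T ξ η a = x} ≤ G := by
        rw [Submodule.span_le]
        rintro _ ⟨ζ, η, a, rfl⟩
        exact hGT a (hu a) ζ η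
      exact this
    have h2 := closure_minimal h1 hGcl
    rw [S.dense.closure_eq] at h2
    exact h2 (Set.mem_univ b)
  refine ⟨Finset K, inferInstance, inferInstance, ⟨∅⟩, J, hJ, hmono2,
    fun b => ⟨hG b (hGtop b), ?_⟩⟩
  have h1 : Tendsto (fun F : Finset K => star (J F * star b)) atTop (𝓝 (star (star b))) :=
    Tendsto.star (hG _ (hGtop (star b)))
  simpa [(fun F => (hJ F).st : ∀ F, star (J F) = J F)] using h1

omit S in
/-- a local criterion for `HasAU` -/
theorem hasAU_of_local (h : ∀ (F : Finset B) (ε : ℝ), 0 < ε → ∃ p : B, Pr p ∧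
    ∀ b ∈ F, ‖p * b - b‖ < ε) : HasAU B := by
  classical
  have h' : ∀ i : Finset B × ℕ, ∃ p : B, Pr p ∧ ∀ b ∈ i.1, ‖p * b - b‖ < 1 / ((i.2 : ℝ) + 1) :=
    fun i => h i.1 _ (by positivity)
  choose e he1 he2 using h'
  have hleft : ∀ b : B, Tendsto (fun i => e i * b) atTop (𝓝 b) := by
    intro b
    rw [Metric.tendsto_atTop]
    intro ε hε
    obtain ⟨n, hn⟩ := exists_nat_one_div_lt hε
    refine ⟨({b}, n), fun i hi => ?_⟩
    rw [dist_eq_norm]
    have h1 := he2 i b (hi.1 (Finset.mem_singleton_self b))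
    have h2 : (n : ℝ) ≤ (i.2 : ℝ) := by exact_mod_cast hi.2
    calc ‖e i * b - b‖ < 1 / ((i.2 : ℝ) + 1) := h1
      _ ≤ 1 / ((n : ℝ) + 1) := by gcongr
      _ < ε := hn
  refine ⟨Finset B × ℕ, inferInstance, inferInstance, inferInstance, e, he1, fun b => ⟨hleft b, ?_⟩⟩
  have h1 : Tendsto (fun i => star (e i * star b)) atTop (𝓝 (star (star b))) :=
    Tendsto.star (hleft (star b))
  simpa [(fun i => (he1 i).st : ∀ i, star (e i) = e i)] using h1

/-- `A ⊗ K(H)` has an approximate identity of projections if `A` has one. -/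
theorem hasAU (hA : HasAU A) (hinf : ℵ₀ ≤ Module.rank ℂ H) : HasAU B := by
  classical
  apply hasAU_of_local
  intro F ε hε
  -- approximate the members of `F` by elements of the span
  have h1 : ∀ b : B, ∃ b' ∈ Submodule.span ℂ {x : B | ∃ ξ η a, S.T ξ η a = x},
      ‖b - b'‖ < ε / 3 := by
    intro b
    obtain ⟨b', hb', hd⟩ := S.dense.exists_dist_lt b (show 0 < ε / 3 by positivity)
    exact ⟨b', hb', by rwa [← dist_eq_norm]⟩
  choose f hf1 hf2 using h1
  -- a countable set of elements of `A`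
  have h2 : ∀ b : B, ∃ C : Set A, C.Countable ∧
      f b ∈ Submodule.span ℂ {x : B | ∃ ξ η, ∃ a ∈ C, S.T ξ η a = x} := by
    intro b
    obtain ⟨s, hs1, hs2⟩ := Submodule.mem_span_finite_of_mem_span (hf1 b)
    have hs1' : ∀ x ∈ s, ∃ ξ η a, S.T ξ η a = x := fun x hx => hs1 hx
    choose! ξ η a hT using hs1'
    refine ⟨(fun x => a x) '' (s : Set B), (s.countable_toSet).image _, ?_⟩
    refine Submodule.span_mono ?_ hs2
    intro x hx
    exact ⟨ξ x, η x, a x, ⟨x, hx, rfl⟩, hT x hx⟩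
  choose C hC1 hC2 using h2
  obtain ⟨Λ, i1, i2, i3, p, hp, hpA⟩ := hA
  have h3 : ∀ (a : A) (n : ℕ), ∃ d : A, ‖d * a - a‖ < 1 / ((n : ℝ) + 1) := by
    intro a n
    have h1 := (hpA a).1
    rw [Metric.tendsto_nhds] at h1
    obtain ⟨i, hi⟩ := (h1 (1 / ((n : ℝ) + 1)) (by positivity)).exists
    exact ⟨p i, by simpa [dist_eq_norm] using hi⟩
  choose d hd using h3
  set CC : Set A := ⋃ b ∈ F, C b with hCC
  have hCCc : CC.Countable := F.countable_toSet.biUnion fun b _ => hC1 b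
  set D : Set A := (fun x : A × ℕ => d x.1 x.2) '' (CC ×ˢ Set.univ) with hD
  have hDc : D.Countable := (hCCc.prod Set.countable_univ).image _
  obtain ⟨K, J, hJ, hmono2, G, hGcl, hG, hGT⟩ := S.exists_net
    ⟨Λ, i1, i2, i3, p, hp, hpA⟩ hinf D (hDc.le_aleph0.trans hinf)
  have h4 : ∀ b ∈ F, f b ∈ G := by
    intro b hb
    have h5 : Submodule.span ℂ {x : B | ∃ ξ η, ∃ a ∈ C b, S.T ξ η a = x} ≤ G := by
      rw [Submodule.span_le]
      rintro _ ⟨ζ, η, a, ha, rfl⟩
      refine hGT a (fun δ hδ => ?_) ζ η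
      obtain ⟨n, hn⟩ := exists_nat_one_div_lt hδ
      refine ⟨d a n, ⟨(a, n), ⟨?_, trivial⟩, rfl⟩, (hd a n).trans hn⟩
      exact Set.mem_biUnion hb ha
    exact h5 (hC2 b)
  have h5 : ∀ᶠ E in (atTop : Filter (Finset K)), ∀ b ∈ F, ‖J E * f b - f b‖ < ε / 3 := by
    rw [Filter.eventually_all_finset]
    intro b hb
    have := hG _ (h4 b hb)
    rw [Metric.tendsto_nhds] at this
    simpa [dist_eq_norm] using this (ε / 3) (by positivity)
  obtain ⟨E, hE⟩ := h5.exists
  refine ⟨J E, hJ E, fun b hb => ?_⟩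
  have e1 := hE b hb
  have e2 := hf2 b
  have e3 : ‖J E * (b - f b)‖ ≤ ‖b - f b‖ := by
    refine (norm_mul_le _ _).trans ?_
    have := (hJ E).norm_le
    nlinarith [norm_nonneg (b - f b)]
  have e4 : J E * b - b = J E * (b - f b) + (J E * f b - f b) - (b - f b) := by
    rw [mul_sub]; abel
  rw [e4]
  calc ‖J E * (b - f b) + (J E * f b - f b) - (b - f b)‖
      ≤ ‖J E * (b - f b) + (J E * f b - f b)‖ + ‖b - f b‖ := norm_sub_le _ _
    _ ≤ ‖J E * (b - f b)‖ + ‖J E * f b - f b‖ + ‖b - f b‖ := by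
        gcongr
        exact norm_add_le _ _
    _ < ε := by linarith

end Stabilization

end Pool.Agent.Helper94.AU
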