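import Pool.Agent.Helper94.AU.Fiber

/-!
The unit vectors `f_n → g` in `ℂ²`.
-/

open Filter Topology

namespace Pool.Agent.Helper94.AU.Fib

/-- `f_n` -/
noncomputable def fv (n : ℕ) : C2 :=
  WithLp.toLp 2 ![((Real.cos (1 / ((n : ℝ) + 1)) : ℝ) : ℂ), ((Real.sin (1 / ((n : ℝ) + 1)) : ℝ) : ℂ)]

/-- the limit of the `f_n` -/
noncomputable def gv : C2 := WithLp.toLp 2 ![1, 0]

/-- orthogonal to `gv` -/
noncomputable def hv : C2 := WithLp.toLp 2 ![0, 1]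

theorem norm_fv (n : ℕ) : ‖fv n‖ = 1 := by
  rw [EuclideanSpace.norm_eq, Fin.sum_univ_two]
  have h0 : (fv n) 0 = ((Real.cos (1 / ((n : ℝ) + 1)) : ℝ) : ℂ) := rfl
  have h1 : (fv n) 1 = ((Real.sin (1 / ((n : ℝ) + 1)) : ℝ) : ℂ) := rfl
  rw [h0, h1, Complex.norm_real, Complex.norm_real, Real.norm_eq_abs, Real.norm_eq_abs, sq_abs,
    sq_abs, Real.cos_sq_add_sin_sq, Real.sqrt_one]

theorem norm_gv : ‖gv‖ = 1 := by
  rw [EuclideanSpace.norm_eq]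
  simp [gv, Fin.sum_univ_two]

theorem norm_hv : ‖hv‖ = 1 := by
  rw [EuclideanSpace.norm_eq]
  simp [hv, Fin.sum_univ_two]

theorem inner_gv_hv : (inner ℂ gv hv : ℂ) = 0 := by
  rw [PiLp.inner_apply]
  simp [gv, hv, Fin.sum_univ_two]

theorem fv_eq (n : ℕ) : fv n = ((Real.cos (1 / ((n : ℝ) + 1)) : ℝ) : ℂ) • gv
    + ((Real.sin (1 / ((n : ℝ) + 1)) : ℝ) : ℂ) • hv := by
  ext i
  fin_cases i <;> simp [fv, gv, hv]

theorem sin_ne (n : ℕ) : ((Real.sin (1 / ((n : ℝ) + 1)) : ℝ) : ℂ) ≠ 0 := by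
  have h1 : 0 < 1 / ((n : ℝ) + 1) := by positivity
  have h2 : 1 / ((n : ℝ) + 1) ≤ 1 := by
    rw [div_le_one (by positivity)]
    have : (0 : ℝ) ≤ n := Nat.cast_nonneg n
    linarith
  have h3 : 0 < Real.sin (1 / ((n : ℝ) + 1)) :=
    Real.sin_pos_of_pos_of_le_one h1 h2
  exact_mod_cast h3.ne'

theorem tendsto_fv : Tendsto fv atTop (𝓝 gv) := by
  have h1 : Tendsto (fun n : ℕ => 1 / ((n : ℝ) + 1)) atTop (𝓝 0) :=
    tendsto_one_div_add_atTop_nhds_zero_nat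
  have h2 : Tendsto (fun n : ℕ => ((Real.cos (1 / ((n : ℝ) + 1)) : ℝ) : ℂ)) atTop (𝓝 ((1 : ℝ) : ℂ)) := by
    have := (Real.continuous_cos.tendsto 0).comp h1
    rw [Real.cos_zero] at this
    exact (Complex.continuous_ofReal.tendsto 1).comp this
  have h3 : Tendsto (fun n : ℕ => ((Real.sin (1 / ((n : ℝ) + 1)) : ℝ) : ℂ)) atTop (𝓝 ((0 : ℝ) : ℂ)) := by
    have := (Real.continuous_sin.tendsto 0).comp h1
    rw [Real.sin_zero] at this
    exact (Complex.continuous_ofReal.tendsto 0).comp this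
  have h4 := (h2.smul_const gv).add (h3.smul_const hv)
  have h5 : (((1 : ℝ) : ℂ) • gv + ((0 : ℝ) : ℂ) • hv) = gv := by simp
  rw [h5] at h4
  refine h4.congr fun n => (fv_eq n).symm

/-- The concrete vectors. -/
noncomputable def vecs : Vecs C2 where
  f := fv
  g := gv
  h := hv
  norm_f := norm_fv
  norm_g := norm_gv
  norm_h := norm_hv
  inner_gh := inner_gv_hv
  c := fun n => ((Real.cos (1 / ((n : ℝ) + 1)) : ℝ) : ℂ)
  s := fun n => ((Real.sin (1 / ((n : ℝ) + 1)) : ℝ) : ℂ)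
  f_eq := fv_eq
  s_ne := sin_ne
  tendsto_f := tendsto_fv

end Pool.Agent.Helper94.AU.Fib
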