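import Pool.Agent.Helper94.AU.Neg
import Pool.Agent.Helper94.AU.Stable
import Pool.Agent.Helper94.AU.Vec
import Pool.Agent.Helper6.AU.Rank

/-!
The threshold for the algebras `A ⊗ K(H)`.
-/

open Filter Topology Cardinal

namespace Pool.Agent.Helper94.AU

theorem aleph_one_le (H : Type) [NormedAddCommGroup H] [InnerProductSpace ℂ H]
    (hH : ¬ FiniteDimensional ℂ H) : Cardinal.aleph 1 ≤ #H := by
  have hnt : Nontrivial H := by
    by_contra h
    rw [not_nontrivial_iff_subsingleton] at h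
    exact hH inferInstance
  obtain ⟨v, hv⟩ := exists_ne (0 : H)
  have h1 : Function.Injective fun z : ℂ => z • v := smul_left_injective ℂ hv
  have h2 : #ℂ ≤ #H := Cardinal.mk_le_of_injective h1
  rw [Cardinal.mk_complex] at h2
  exact Cardinal.aleph_one_le_continuum.trans h2

/-- the positive half -/
theorem positive (H : Type) [NormedAddCommGroup H] [InnerProductSpace ℂ H] [CompleteSpace H]
    (hH : ¬ FiniteDimensional ℂ H) (A B : Type) [NonUnitalCStarAlgebra A]
    [NonUnitalCStarAlgebra B] (S : Stabilization A H B) (hD : CardUnital A #H) (hA : HasAU A) :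
    HasIncAU B := by
  obtain ⟨D, hD1, hD2⟩ := hD
  have h1 : Module.rank ℂ H = #H := Pool.Agent.Helper6.AU.rank_eq_card H hH
  have h2 : ℵ₀ ≤ Module.rank ℂ H := by
    rw [h1]
    exact (Cardinal.aleph0_lt_aleph_one.le).trans (aleph_one_le H hH)
  exact S.hasIncAU_of_rank hA h2 D (by rw [h1]; exact hD1) hD2

/-- the negative half -/
theorem negative (H : Type) [NormedAddCommGroup H] [InnerProductSpace ℂ H] [CompleteSpace H]
    (hH : ¬ FiniteDimensional ℂ H) :
    ∃ (A B : Type) (_ : NonUnitalCStarAlgebra A) (_ : NonUnitalCStarAlgebra B),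
      Nonempty (Stabilization A H B) ∧ CardUnital A (Order.succ #H) ∧ HasAU A ∧ HasAU B ∧
        ¬ HasIncAU B := by
  set X : Type := (Order.succ #H).ord.ToType with hX
  have hXc : #X = Order.succ #H := Cardinal.mk_ord_toType _
  have hal : Cardinal.aleph 1 ≤ #H := aleph_one_le H hH
  have hlt : #H < #X := by rw [hXc]; exact Order.lt_succ _
  have hXinf : ℵ₀ ≤ #X := (Cardinal.aleph0_lt_aleph_one.le.trans hal).trans hlt.le
  haveI : Infinite X := Cardinal.infinite_iff.mpr hXinf
  have h1 : Module.rank ℂ H = #H := Pool.Agent.Helper6.AU.rank_eq_card H hH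
  have h2 : ℵ₀ ≤ Module.rank ℂ H := by
    rw [h1]
    exact (Cardinal.aleph0_lt_aleph_one.le).trans hal
  refine ⟨AA X Fib.vecs, BB Fib.vecs (Fib.tens H) X, inferInstance, inferInstance,
    ⟨stab Fib.vecs (Fib.tens H) X⟩, ?_, hasAU_AA Fib.vecs,
    (stab Fib.vecs (Fib.tens H) X).hasAU (hasAU_AA Fib.vecs) h2,
    not_hasIncAU_BB Fib.vecs (Fib.tens H) hal hlt⟩
  refine ⟨Set.range (pA Fib.vecs), ?_, ?_⟩
  · refine Cardinal.mk_range_le.trans ?_
    rw [Cardinal.mk_prod, Cardinal.lift_id, Cardinal.lift_id, Cardinal.mk_finset_of_infinite,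
      Cardinal.mk_nat, Cardinal.mul_aleph0_eq hXinf, hXc]
  · intro a ε hε
    obtain ⟨i, hi⟩ := ((Metric.tendsto_nhds.mp (tendsto_pA Fib.vecs a)) ε hε).exists
    exact ⟨_, ⟨i, rfl⟩, by rwa [dist_eq_norm] at hi⟩

end Pool.Agent.Helper94.AU
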