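import Pool.Agent.Helper94.AU.Stab
import Pool.Agent.Helper6.AU.NoInc

/-!
The elements of `B`: exact limits along rows and columns, tails.
-/

open Filter Topology
open scoped ENNReal

namespace Pool.Agent.Helper94.AU

open ContinuousLinearMap

variable {X : Type} {E H E' : Type} [NormedAddCommGroup E] [InnerProductSpace ℂ E]
    [CompleteSpace E] [NormedAddCommGroup H] [InnerProductSpace ℂ H] [CompleteSpace H]
    [NormedAddCommGroup E'] [InnerProductSpace ℂ E'] [CompleteSpace E']
    (V : Vecs E) (S : Tens E H E')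

/-- `|w⟩⟨w| ⊗ P` -/
noncomputable def blk (w : E) (P : H →L[ℂ] H) : E' →L[ℂ] E' := S.I w ∘L P ∘L adjoint (S.I w)

theorem blk_add (w : E) (P Q : H →L[ℂ] H) : blk S w (P + Q) = blk S w P + blk S w Q := by
  ext1 v; simp [blk]

theorem blk_smul (w : E) (c : ℂ) (P : H →L[ℂ] H) : blk S w (c • P) = c • blk S w P := by
  ext1 v; simp [blk]

theorem blk_zero (w : E) : blk S w (0 : H →L[ℂ] H) = 0 := by
  ext1 v; simp [blk]

theorem blk_continuous (w : E) : Continuous fun P : H →L[ℂ] H => blk S w P := by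
  unfold blk
  fun_prop

/-- recover `P` -/
theorem blk_back {w : E} (hw : ‖w‖ = 1) (P : H →L[ℂ] H) :
    adjoint (S.I w) ∘L blk S w P ∘L S.I w = P := by
  have h : (inner ℂ w w : ℂ) = 1 := by
    rw [inner_self_eq_norm_sq_to_K, hw]; simp
  have hI : ∀ v, adjoint (S.I w) (S.I w v) = v := by
    intro v
    rw [S.I_apply, S.adj_I_J, h, one_smul]
  ext1 v
  simp only [blk, coe_comp', Function.comp_apply, hI]

/-- the row and column limits are exact off a countable set -/
def Lim (b : Big X E') : Prop :=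
  ∀ x, ∃ P : H →L[ℂ] H, ∃ C : Set X, C.Countable ∧ ∀ y ∉ C, ∀ n : ℕ,
    b (x, y, n) = blk S V.g P ∧ b (y, x, n) = blk S (V.f n) P

/-- tails -/
def Tail (b : Big X E') : Prop :=
  ∀ x y, Tendsto (fun n : ℕ => b (x, y, n) - S.E0 V.g * b (x, y, n)) atTop (𝓝 0)

/-- the submodule of the functions with the two properties -/
def QM (X : Type) : Submodule ℂ (Big X E') where
  carrier := {b | Lim V S b ∧ Tail V S b}
  zero_mem' := by
    constructor
    · intro x
      refine ⟨0, ∅, Set.countable_empty, fun y _ n => ?_⟩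
      rw [blk_zero, blk_zero]
      exact ⟨rfl, rfl⟩
    · intro x y
      have : (fun n : ℕ => (0 : Big X E') (x, y, n) - S.E0 V.g * (0 : Big X E') (x, y, n))
          = fun _ => 0 := by
        funext n
        change (0 : E' →L[ℂ] E') - S.E0 V.g * 0 = 0
        simp
      rw [this]
      exact tendsto_const_nhds
  add_mem' := by
    rintro a b ⟨ha1, ha2⟩ ⟨hb1, hb2⟩
    constructor
    · intro x
      obtain ⟨P, C, hC, hP⟩ := ha1 x
      obtain ⟨Q, D, hD, hQ⟩ := hb1 x
      refine ⟨P + Q, C ∪ D, hC.union hD, fun y hy n => ?_⟩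
      have hy1 : y ∉ C := fun h => hy (Or.inl h)
      have hy2 : y ∉ D := fun h => hy (Or.inr h)
      constructor
      · change a (x, y, n) + b (x, y, n) = _
        rw [(hP y hy1 n).1, (hQ y hy2 n).1, blk_add]
      · change a (y, x, n) + b (y, x, n) = _
        rw [(hP y hy1 n).2, (hQ y hy2 n).2, blk_add]
    · intro x y
      have := (ha2 x y).add (hb2 x y)
      rw [add_zero] at this
      refine this.congr fun n => ?_
      change _ = a (x, y, n) + b (x, y, n) - S.E0 V.g * (a (x, y, n) + b (x, y, n))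
      rw [mul_add]; abel
  smul_mem' := by
    rintro c a ⟨ha1, ha2⟩
    constructor
    · intro x
      obtain ⟨P, C, hC, hP⟩ := ha1 x
      refine ⟨c • P, C, hC, fun y hy n => ?_⟩
      constructor
      · change c • a (x, y, n) = _
        rw [(hP y hy n).1, blk_smul]
      · change c • a (y, x, n) = _
        rw [(hP y hy n).2, blk_smul]
    · intro x y
      have := (ha2 x y).const_smul c
      rw [smul_zero] at this
      refine this.congr fun n => ?_
      change _ = c • a (x, y, n) - S.E0 V.g * (c • a (x, y, n))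
      rw [mul_smul_comm, smul_sub]

theorem mem_QM {b : Big X E'} : b ∈ QM V S X ↔ Lim V S b ∧ Tail V S b := Iff.rfl

theorem isClosed_QM [Uncountable X] : IsClosed (QM V S X : Set (Big X E')) := by
  apply IsSeqClosed.isClosed
  intro a b ha hab
  have hpt : ∀ z, Tendsto (fun k => a k z) atTop (𝓝 (b z)) := fun z =>
    ((lp.lipschitzWith_one_eval ∞ z).continuous.tendsto b).comp hab
  have ha' : ∀ k, Lim V S (a k) ∧ Tail V S (a k) := ha
  refine ⟨?_, ?_⟩
  · intro x
    choose P C hC hP using fun k => (ha' k).1 x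
    set D : Set X := ⋃ k, C k with hD
    have hDc : D.Countable := Set.countable_iUnion hC
    obtain ⟨y₀, hy₀⟩ : ∃ y, y ∉ D := by
      by_contra h
      push Not at h
      have : D = Set.univ := Set.eq_univ_of_forall h
      rw [this] at hDc
      exact Set.not_countable_univ hDc
    have hk : ∀ y ∉ D, ∀ k, y ∉ C k := fun y hy k h => hy (Set.mem_iUnion.mpr ⟨k, h⟩)
    set Q : H →L[ℂ] H := adjoint (S.I V.g) ∘L b (x, y₀, 0) ∘L S.I V.g with hQ
    have h1 : Tendsto P atTop (𝓝 Q) := by
      have h2 : Continuous fun T : E' →L[ℂ] E' => adjoint (S.I V.g) ∘L T ∘L S.I V.g := by fun_prop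
      have h3 := (h2.tendsto (b (x, y₀, 0))).comp (hpt (x, y₀, 0))
      refine h3.congr fun k => ?_
      change adjoint (S.I V.g) ∘L a k (x, y₀, 0) ∘L S.I V.g = P k
      rw [(hP k y₀ (hk y₀ hy₀ k) 0).1, blk_back S V.norm_g]
    refine ⟨Q, D, hDc, fun y hy n => ⟨?_, ?_⟩⟩
    · have h2 := ((blk_continuous S V.g).tendsto Q).comp h1
      refine tendsto_nhds_unique (hpt (x, y, n)) (h2.congr fun k => ?_)
      exact ((hP k y (hk y hy k) n).1).symm
    · have h2 := ((blk_continuous S (V.f n)).tendsto Q).comp h1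
      refine tendsto_nhds_unique (hpt (y, x, n)) (h2.congr fun k => ?_)
      exact ((hP k y (hk y hy k) n).2).symm
  · intro x y
    rw [Metric.tendsto_atTop]
    intro ε hε
    set K : ℝ := ‖S.E0 (H := H) V.g‖ + 1 with hK
    have hK0 : 0 < K := by positivity
    obtain ⟨k, hk⟩ := (Metric.tendsto_atTop.mp hab) (ε / (2 * (K + 1))) (by positivity)
    have hk1 : ∀ z, ‖b z - a k z‖ < ε / (2 * (K + 1)) := by
      intro z
      have h1 := hk k le_rfl
      rw [dist_eq_norm, norm_sub_rev] at h1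
      exact (lp.norm_apply_le_norm ENNReal.top_ne_zero (b - a k) z).trans_lt h1
    obtain ⟨N, hN⟩ := (Metric.tendsto_atTop.mp ((ha' k).2 x y)) (ε / 2) (by positivity)
    refine ⟨N, fun n hn => ?_⟩
    have h2 := hN n hn
    rw [dist_zero_right] at h2 ⊢
    set z := (x, y, n)
    have h3 : b z - S.E0 V.g * b z = (b z - a k z) - S.E0 V.g * (b z - a k z)
        + (a k z - S.E0 V.g * a k z) := by
      rw [mul_sub]; abel
    rw [h3]
    have h4 : ‖S.E0 V.g * (b z - a k z)‖ ≤ K * ‖b z - a k z‖ := by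
      refine (norm_mul_le _ _).trans ?_
      gcongr
      rw [hK]; linarith
    have h5 := hk1 z
    calc ‖(b z - a k z) - S.E0 V.g * (b z - a k z) + (a k z - S.E0 V.g * a k z)‖
        ≤ ‖(b z - a k z) - S.E0 V.g * (b z - a k z)‖ + ‖a k z - S.E0 V.g * a k z‖ :=
          norm_add_le _ _
      _ ≤ ‖b z - a k z‖ + ‖S.E0 V.g * (b z - a k z)‖ + ‖a k z - S.E0 V.g * a k z‖ := by
          gcongr
          exact norm_sub_le _ _
      _ ≤ ‖b z - a k z‖ + K * ‖b z - a k z‖ + ‖a k z - S.E0 V.g * a k z‖ := by gcongr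
      _ = (K + 1) * ‖b z - a k z‖ + ‖a k z - S.E0 V.g * a k z‖ := by ring
      _ < (K + 1) * (ε / (2 * (K + 1))) + ε / 2 := by gcongr
      _ = ε := by field_simp; ring

theorem TB_mem_QM (ξ η : H) {a : Big X E} (ha : a ∈ NA X V) : TB S ξ η a ∈ QM V S X := by
  obtain ⟨⟨F, l, hF⟩, hL, -⟩ := ha
  constructor
  · intro x
    refine ⟨l x • InnerProductSpace.rankOne ℂ ξ η, (F : Set X), F.countable_toSet,
      fun y hy n => ?_⟩
    have hy' : y ∉ F := hy
    constructor
    · rw [TB_apply, hF.row x y hy' n, S.tt_smul, S.tt_pj, blk_smul]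
      rfl
    · rw [TB_apply, hF.col x y hy' n, S.tt_smul, S.tt_pj, blk_smul]
      rfl
  · intro x y
    rw [tendsto_zero_iff_norm_tendsto_zero]
    have h1 := ((tendsto_zero_iff_norm_tendsto_zero).mp (hL x y)).const_mul (‖ξ‖ * ‖η‖)
    rw [mul_zero] at h1
    refine h1.congr fun n => ?_
    rw [TB_apply, S.E0_tt]
    have h2 : S.tt ξ η (a (x, y, n)) - S.tt ξ η (pj V.g * a (x, y, n))
        = S.tt ξ η (a (x, y, n) - pj V.g * a (x, y, n)) := by
      ext1 v
      simp [Tens.tt]
    rw [h2, S.norm_tt]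

/-- linear form of `TB` -/
noncomputable def TBl (X : Type) (ξ η : H) : Big X E →ₗ[ℂ] Big X E' where
  toFun := TB S ξ η
  map_add' := TB_add S ξ η
  map_smul' c a := TB_smul S c ξ η a

theorem TB_continuous (ξ η : H) : Continuous (TB (X := X) S ξ η) := by
  have h : Continuous (TBl S X ξ η) := by
    apply AddMonoidHomClass.continuous_of_bound _ (‖ξ‖ * ‖η‖)
    intro a
    exact (norm_TB S ξ η a).le
  exact h

theorem BB_mem_QM [Uncountable X] (b : BB V S X) : (b : Big X E') ∈ QM V S X := by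
  have h1 : ∀ (ξ η : H) (a : AA X V), TB S ξ η (a : Big X E) ∈ QM V S X := by
    intro ξ η a
    have h2 : IsClosed {c : Big X E | TB S ξ η c ∈ QM V S X} :=
      (isClosed_QM V S).preimage (TB_continuous S ξ η)
    have h3 : (NA X V : Set (Big X E)) ⊆ {c : Big X E | TB S ξ η c ∈ QM V S X} :=
      fun c hc => TB_mem_QM V S ξ η hc
    exact closure_minimal h3 h2 a.2
  have h2 : (NB V S X : Set (Big X E')) ⊆ (QM V S X : Set (Big X E')) := by
    have : Submodule.span ℂ (Gen V S X) ≤ QM V S X := by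
      rw [Submodule.span_le]
      rintro _ ⟨ξ, η, a, rfl⟩
      exact h1 ξ η a
    exact this
  exact closure_minimal h2 (isClosed_QM V S) b.2

/-- `B` has no increasing approximate identity of projections. -/
theorem not_hasIncAU_BB (hH : Cardinal.aleph 1 ≤ Cardinal.mk H) (hX : Cardinal.mk H < Cardinal.mk X) :
    ¬ HasIncAU (BB V S X) := by
  classical
  have hX1 : Cardinal.aleph0 < Cardinal.mk X :=
    (Cardinal.aleph0_lt_aleph_one.trans_le hH).trans hX
  haveI : Uncountable X := by
    rw [← Cardinal.aleph0_lt_mk_iff]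
    exact hX1
  haveI : Nontrivial H := by
    rw [← Cardinal.one_lt_iff_nontrivial]
    exact (Cardinal.one_lt_aleph0.trans Cardinal.aleph0_lt_aleph_one).trans_le hH
  rintro ⟨Λ, i1, i2, i3, e, he, hinc, hlim⟩
  have hst : ∀ l, star (e l) = e l := fun l => (he l).2
  refine Pool.Agent.Helper6.AU.no_inc V S hH hX (fun l z => (e l : Big X E') z) ?_ ?_ ?_ ?_ ?_
  · intro l m hlm z
    have h1 : e m * e l = e l := by
      have := congrArg star (hinc l m hlm)
      simpa [hst] using this
    have h2 := congrArg (fun b : BB V S X => (b : Big X E') z) h1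
    exact h2
  · intro l z
    have h1 : e l * e l = e l := (he l).1
    have h2 := congrArg (fun b : BB V S X => (b : Big X E') z) h1
    exact h2
  · intro l x
    obtain ⟨P, C, hC, hP⟩ := (BB_mem_QM V S (e l)).1 x
    exact ⟨P, C, hC, hP⟩
  · intro l x y
    exact (BB_mem_QM V S (e l)).2 x y
  · intro x
    obtain ⟨δ, hδ⟩ : ∃ δ : H, ‖δ‖ = 1 := by
      obtain ⟨v, hv⟩ := exists_ne (0 : H)
      refine ⟨((‖v‖⁻¹ : ℝ) : ℂ) • v, ?_⟩
      rw [norm_smul, Complex.norm_real, norm_inv, norm_norm,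
        inv_mul_cancel₀ (norm_ne_zero_iff.mpr hv)]
    set b : BB V S X := TT V S δ δ (pA V ({x}, 0)) with hb
    obtain ⟨l, hl⟩ := ((Metric.tendsto_nhds.mp (hlim b).1) 1 one_pos).exists
    refine ⟨l, δ, {x}, Set.countable_singleton x, fun y hy => ?_⟩
    have hy' : y ≠ x := hy
    rw [dist_eq_norm] at hl
    have h1 : ‖(e l : Big X E') (x, y, 0) * (b : Big X E') (x, y, 0) - (b : Big X E') (x, y, 0)‖
        < 1 := by
      have h2 := lp.norm_apply_le_norm ENNReal.top_ne_zero
        ((e l : Big X E') * (b : Big X E') - (b : Big X E')) (x, y, 0)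
      exact h2.trans_lt hl
    have h3 : (b : Big X E') (x, y, 0) = S.tt δ δ (pj V.g) := by
      have h4 : pfun V ({x} : Finset X) 0 (x, y, 0) = pj V.g := by
        simp [pfun, hy']
      change S.tt δ δ (pfun V ({x} : Finset X) 0 (x, y, 0)) = _
      rw [h4]
    rw [h3] at h1
    have h5 : S.tt δ δ (pj V.g) (S.I V.g δ) = S.I V.g δ := by
      have hgg : (inner ℂ V.g V.g : ℂ) = 1 := by
        rw [inner_self_eq_norm_sq_to_K, V.norm_g]; simp
      have hdd : (inner ℂ δ δ : ℂ) = 1 := by
        rw [inner_self_eq_norm_sq_to_K, hδ]; simp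
      have hI : adjoint (S.I V.g) (S.I V.g δ) = δ := by
        rw [S.I_apply, S.adj_I_J, hgg, one_smul]
      rw [S.tt_pj]
      change S.I V.g (InnerProductSpace.rankOne ℂ δ δ (adjoint (S.I V.g) (S.I V.g δ))) = _
      rw [hI, InnerProductSpace.rankOne_apply, hdd, one_smul]
    have h6 := ((e l : Big X E') (x, y, 0) * S.tt δ δ (pj V.g) - S.tt δ δ (pj V.g)).le_opNorm
      (S.I V.g δ)
    have h7 : ((e l : Big X E') (x, y, 0) * S.tt δ δ (pj V.g) - S.tt δ δ (pj V.g)) (S.I V.g δ)
        = (e l : Big X E') (x, y, 0) (S.I V.g δ) - S.I V.g δ := by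
      change (e l : Big X E') (x, y, 0) (S.tt δ δ (pj V.g) (S.I V.g δ))
        - S.tt δ δ (pj V.g) (S.I V.g δ) = _
      rw [h5]
    have h8 : ‖S.I V.g δ‖ = 1 := by
      rw [S.I_apply, S.norm_J, hδ, V.norm_g, one_mul]
    rw [h7, h8, mul_one] at h6
    change ‖(e l : Big X E') (x, y, 0) (S.I V.g δ) - S.I V.g δ‖ < ‖δ‖
    rw [hδ]
    exact h6.trans_lt h1

end Pool.Agent.Helper94.AU
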