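import Mathlib

/-!
Polar parts in non-unital C*-algebras by the Newton - Schulz iteration
`x ↦ x + x (c - x* x) / 2`, with the facts which are needed for exact inclusions of projections.
-/

open Filter Topology

namespace Pool.Agent.Helper94.AU

variable {A : Type*} [NonUnitalCStarAlgebra A]

/-- `p` is a projection. -/
def Pr (p : A) : Prop := IsIdempotentElem p ∧ IsSelfAdjoint p

theorem Pr.mul {p : A} (h : Pr p) : p * p = p := h.1

theorem Pr.st {p : A} (h : Pr p) : star p = p := h.2

theorem Pr.norm_le {p : A} (h : Pr p) : ‖p‖ ≤ 1 := by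
  have h1 : ‖star p * p‖ = ‖p‖ * ‖p‖ := CStarRing.norm_star_mul_self
  rw [h.st, h.mul] at h1
  by_contra h2
  push Not at h2
  nlinarith [norm_nonneg p]

/-- one step of the iteration -/
noncomputable def stp (c x : A) : A := x + (1 / 2 : ℂ) • (x * (c - star x * x))

/-- the iteration -/
noncomputable def itr (c w : A) : ℕ → A
  | 0 => w
  | n + 1 => stp c (itr c w n)

/-- the defect -/
noncomputable def dft (c x : A) : A := c - star x * x

section step

variable {c x : A}

theorem dft_star (hc : Pr c) : star (dft c x) = dft c x := by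
  simp [dft, hc.st]

theorem c_dft (hc : Pr c) (hx : x * c = x) : c * dft c x = dft c x := by
  have h : c * star x = star x := by
    have := congrArg star hx
    simpa [hc.st] using this
  rw [dft, mul_sub, hc.mul, ← mul_assoc, h]

theorem dft_c (hc : Pr c) (hx : x * c = x) : dft c x * c = dft c x := by
  rw [dft, sub_mul, hc.mul, mul_assoc, hx]

theorem stp_c (hc : Pr c) (hx : x * c = x) : stp c x * c = stp c x := by
  have h := dft_c hc hx
  unfold dft at h
  rw [stp, add_mul, smul_mul_assoc, mul_assoc, h, hx]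

theorem xx_eq : star x * x = c - dft c x := by
  simp [dft]

theorem dft_stp (hc : Pr c) (hx : x * c = x) :
    dft c (stp c x) = (3 / 4 : ℂ) • (dft c x * dft c x)
      + (1 / 4 : ℂ) • (dft c x * dft c x * dft c x) := by
  have h1 := c_dft hc hx
  have h2 := dft_c hc hx
  have h3 := dft_star (c := c) (x := x) hc
  have h4 : star x * x = c - dft c x := xx_eq
  have h5 : stp c x = x + (1 / 2 : ℂ) • (x * dft c x) := rfl
  set g := dft c x with hg
  have h6 : star (stp c x) = star x + (1 / 2 : ℂ) • (g * star x) := by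
    rw [h5, star_add, star_smul, star_mul, h3]
    norm_num
  have h7 : dft c (stp c x) = c - star (stp c x) * stp c x := rfl
  have e1 : star x * (x * g) = g - g * g := by
    rw [← mul_assoc, h4, sub_mul, h1]
  have e2 : g * star x * x = g - g * g := by
    rw [mul_assoc, h4, mul_sub, h2]
  have e3 : g * star x * (x * g) = g * g - g * g * g := by
    rw [← mul_assoc, e2, sub_mul]
  rw [h7, h6, h5, add_mul, mul_add, mul_add, smul_mul_assoc, smul_mul_assoc, mul_smul_comm,
    mul_smul_comm, h4, e1, e2, e3]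
  module

end step

theorem stp_dist {c x : A} (hc : Pr c) (h : ‖dft c x‖ ≤ 1) :
    ‖stp c x - x‖ ≤ ‖dft c x‖ := by
  have h1 : ‖x‖ ≤ 2 := by
    have h2 : ‖star x * x‖ = ‖x‖ * ‖x‖ := CStarRing.norm_star_mul_self
    have h3 : star x * x = c - dft c x := xx_eq
    have h4 : ‖star x * x‖ ≤ 2 := by
      rw [h3]
      refine (norm_sub_le _ _).trans ?_
      linarith [hc.norm_le]
    by_contra h5
    push Not at h5
    nlinarith
  have h2 : stp c x - x = (1 / 2 : ℂ) • (x * dft c x) := by
    simp [stp, dft]
  rw [h2, norm_smul]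
  have h3 : ‖x * dft c x‖ ≤ ‖x‖ * ‖dft c x‖ := norm_mul_le _ _
  have h4 : ‖(1 / 2 : ℂ)‖ = 1 / 2 := by norm_num
  rw [h4]
  nlinarith [norm_nonneg (dft c x)]

theorem dft_next {c x : A} (hc : Pr c) (hx : x * c = x) (h : ‖dft c x‖ ≤ 1) :
    ‖dft c (stp c x)‖ ≤ ‖dft c x‖ * ‖dft c x‖ := by
  rw [dft_stp hc hx]
  set g := dft c x
  have h1 : ‖g * g‖ ≤ ‖g‖ * ‖g‖ := norm_mul_le _ _
  have h2 : ‖g * g * g‖ ≤ ‖g‖ * ‖g‖ * ‖g‖ := by
    refine (norm_mul_le _ _).trans ?_
    gcongr
  have h3 : ‖(3 / 4 : ℂ) • (g * g)‖ = 3 / 4 * ‖g * g‖ := by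
    rw [norm_smul]; norm_num
  have h4 : ‖(1 / 4 : ℂ) • (g * g * g)‖ = 1 / 4 * ‖g * g * g‖ := by
    rw [norm_smul]; norm_num
  have h5 : ‖g‖ * ‖g‖ * ‖g‖ ≤ ‖g‖ * ‖g‖ := by
    nlinarith [norm_nonneg g, mul_nonneg (norm_nonneg g) (norm_nonneg g)]
  refine (norm_add_le _ _).trans ?_
  rw [h3, h4]
  linarith

/-- Polar part. -/
theorem polar {c w₀ : A} (hc : Pr c) (hw : w₀ * c = w₀) {γ : ℝ} (hγ : γ < 1)
    (hg : ‖c - star w₀ * w₀‖ ≤ γ) :
    ∃ w : A, star w * w = c ∧ w * c = w ∧ ‖w - w₀‖ ≤ γ / (1 - γ) ∧
      w * (star w * w₀) = w₀ ∧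
      (∀ b : A, b * w₀ = w₀ → b * w = w) ∧
      (∀ b : A, b * w₀ = 0 → b * w = 0) ∧
      (∀ p : A, star p = p → p * w₀ = p → w₀ * p = p → p * w = p ∧ w * p = p) := by
  have hγ0 : 0 ≤ γ := (norm_nonneg _).trans hg
  set W := itr c w₀ with hW
  have W0 : W 0 = w₀ := rfl
  have Ws : ∀ n, W (n + 1) = stp c (W n) := fun n => rfl
  have hWc : ∀ n, W n * c = W n := by
    intro n
    induction n with
    | zero => exact hw
    | succ n ih => rw [Ws]; exact stp_c hc ih
  have hd : ∀ n, ‖dft c (W n)‖ ≤ γ * γ ^ n := by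
    intro n
    induction n with
    | zero => simpa [W0, dft] using hg
    | succ n ih =>
      have h1 : γ * γ ^ n ≤ γ := mul_le_of_le_one_right hγ0 (pow_le_one₀ hγ0 hγ.le)
      have h2 : ‖dft c (W n)‖ ≤ 1 := ih.trans (h1.trans hγ.le)
      rw [Ws]
      refine (dft_next hc (hWc n) h2).trans ?_
      calc ‖dft c (W n)‖ * ‖dft c (W n)‖ ≤ (γ * γ ^ n) * γ := by
            gcongr
            exact ih.trans h1
        _ = γ * γ ^ (n + 1) := by ring
  have hd1 : ∀ n, ‖dft c (W n)‖ ≤ 1 := fun n =>
    (hd n).trans ((mul_le_of_le_one_right hγ0 (pow_le_one₀ hγ0 hγ.le)).trans hγ.le)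
  have hdist : ∀ n, dist (W n) (W (n + 1)) ≤ γ * γ ^ n := by
    intro n
    rw [dist_comm, dist_eq_norm, Ws]
    exact (stp_dist hc (hd1 n)).trans (hd n)
  have hcau : CauchySeq W := cauchySeq_of_le_geometric γ γ hγ hdist
  obtain ⟨w, hw1⟩ := cauchySeq_tendsto_of_complete hcau
  have hdl : Tendsto (fun n => dft c (W n)) atTop (𝓝 0) := by
    rw [tendsto_zero_iff_norm_tendsto_zero]
    have h1 : Tendsto (fun n : ℕ => γ * γ ^ n) atTop (𝓝 (γ * 0)) :=
      (tendsto_pow_atTop_nhds_zero_of_lt_one hγ0 hγ).const_mul γ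
    rw [mul_zero] at h1
    exact squeeze_zero (fun n => norm_nonneg _) hd h1
  have hst : Tendsto (fun n => star (W n)) atTop (𝓝 (star w)) := hw1.star
  have hdl2 : Tendsto (fun n => dft c (W n)) atTop (𝓝 (c - star w * w)) := by
    simpa [dft] using tendsto_const_nhds.sub (hst.mul hw1)
  have hww : star w * w = c := by
    have := tendsto_nhds_unique hdl hdl2
    exact (sub_eq_zero.mp this.symm).symm
  -- structure: `W n = w₀ * h n`
  set m := star w₀ * w₀ with hm
  have hmc : m * c = m := by rw [hm, mul_assoc, hw]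
  have hms : star m = m := by rw [hm]; simp
  have hcm : c * m = m := by
    have := congrArg star hmc
    simpa [hc.st, hms] using this
  have hstr : ∀ n, ∃ h : A, W n = w₀ * h ∧ star h = h ∧ Commute h m ∧ c * h = h ∧ h * c = h := by
    intro n
    induction n with
    | zero =>
      exact ⟨c, by rw [W0, hw], hc.st, by rw [Commute, SemiconjBy, hcm, hmc], hc.mul, hc.mul⟩
    | succ n ih =>
      obtain ⟨h, e1, e2, e3, e4, e5⟩ := ih
      have e6 : star (W n) * W n = h * (m * h) := by
        rw [e1, star_mul, e2, hm]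
        simp only [mul_assoc]
      have hgd : dft c (W n) = c - h * (m * h) := by rw [dft, e6]
      set g := dft c (W n) with hg'
      have hhc : Commute h c := by rw [Commute, SemiconjBy, e4, e5]
      have hmc' : Commute m c := by rw [Commute, SemiconjBy, hcm, hmc]
      have e7 : Commute h g := by
        rw [hgd]
        exact hhc.sub_right ((Commute.refl h).mul_right (e3.mul_right (Commute.refl h)))
      have e8 : Commute m g := by
        rw [hgd]
        exact hmc'.sub_right (e3.symm.mul_right ((Commute.refl m).mul_right e3.symm))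
      refine ⟨h + (1 / 2 : ℂ) • (h * g), ?_, ?_, ?_, ?_, ?_⟩
      · rw [Ws, stp, mul_add, mul_smul_comm, ← mul_assoc, ← e1]
        rfl
      · rw [star_add, star_smul, star_mul, e2, dft_star hc, ← e7.eq]
        norm_num
      · exact (e3.symm.add_right ((e3.symm.mul_right e8).smul_right (1 / 2 : ℂ))).symm
      · rw [mul_add, mul_smul_comm, ← mul_assoc, e4]
      · rw [add_mul, smul_mul_assoc, mul_assoc, dft_c hc (hWc n), e5]
  have hs1 : ∀ n, star (W n) * w₀ = star w₀ * W n := by
    intro n
    obtain ⟨h, e1, e2, e3, e4, e5⟩ := hstr n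
    rw [e1, star_mul, e2, mul_assoc, ← mul_assoc (star w₀) w₀ h]
    exact e3.eq
  have hs2 : ∀ n, star w₀ * W n * (star w₀ * W n) = m * (star (W n) * W n) := by
    intro n
    obtain ⟨h, e1, e2, e3, e4, e5⟩ := hstr n
    have e6 : star (W n) * W n = h * (m * h) := by
      rw [e1, star_mul, e2, hm]
      simp only [mul_assoc]
    have e7 : star w₀ * W n = m * h := by rw [e1, ← mul_assoc]
    rw [e6, e7]
    simp only [mul_assoc]
  have ls1 : star w * w₀ = star w₀ * w := by
    have h1 : Tendsto (fun n => star (W n) * w₀) atTop (𝓝 (star w * w₀)) :=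
      hst.mul tendsto_const_nhds
    have h2 : Tendsto (fun n => star w₀ * W n) atTop (𝓝 (star w₀ * w)) :=
      tendsto_const_nhds.mul hw1
    simp only [hs1] at h1
    exact tendsto_nhds_unique h1 h2
  have ls2 : star w₀ * w * (star w₀ * w) = m := by
    have h2 : Tendsto (fun n => star w₀ * W n) atTop (𝓝 (star w₀ * w)) :=
      tendsto_const_nhds.mul hw1
    have h3 := h2.mul h2
    simp only [hs2] at h3
    have h4 : Tendsto (fun n => m * (star (W n) * W n)) atTop (𝓝 (m * (star w * w))) :=
      tendsto_const_nhds.mul (hst.mul hw1)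
    rw [hww, hmc] at h4
    exact tendsto_nhds_unique h3 h4
  have hwc : w * c = w := by
    have h1 : Tendsto (fun n => W n * c) atTop (𝓝 (w * c)) := hw1.mul tendsto_const_nhds
    simp only [hWc] at h1
    exact tendsto_nhds_unique h1 hw1
  have hfull : w * (star w * w₀) = w₀ := by
    have h1 : star (w₀ - w * (star w * w₀)) * (w₀ - w * (star w * w₀)) = 0 := by
      have e1 : star (w * (star w * w₀)) = star w₀ * w * star w := by
        simp [mul_assoc]
      have e2 : star w₀ * (w * (star w * w₀)) = m := by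
        rw [← mul_assoc, ls1, ls2]
      have e3 : star w₀ * w * star w * w₀ = m := by
        rw [mul_assoc (star w₀ * w), ls1, ls2]
      have e4 : star w₀ * w * star w * (w * (star w * w₀)) = m := by
        rw [mul_assoc (star w₀ * w), ← mul_assoc (star w) w, hww, ← mul_assoc (star w₀ * w) c,
          mul_assoc (star w₀) w c, hwc, ls1, ls2]
      rw [star_sub, e1, sub_mul, mul_sub, mul_sub, e2, e3, e4, ← hm]
      simp
    have h2 := (CStarRing.star_mul_self_eq_zero_iff _).mp h1
    exact (sub_eq_zero.mp h2).symm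
  refine ⟨w, hww, hwc, ?_, hfull, ?_, ?_, ?_⟩
  · have := dist_le_of_le_geometric_of_tendsto₀ γ γ hγ hdist hw1
    rwa [W0, dist_comm, dist_eq_norm] at this
  · intro b hb
    have h1 : ∀ n, b * W n = W n := by
      intro n
      induction n with
      | zero => exact hb
      | succ n ih => rw [Ws, stp, mul_add, mul_smul_comm, ← mul_assoc, ih]
    have h2 : Tendsto (fun n => b * W n) atTop (𝓝 (b * w)) := tendsto_const_nhds.mul hw1
    simp only [h1] at h2
    exact tendsto_nhds_unique h2 hw1
  · intro b hb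
    have h1 : ∀ n, b * W n = 0 := by
      intro n
      induction n with
      | zero => exact hb
      | succ n ih => rw [Ws, stp, mul_add, mul_smul_comm, ← mul_assoc, ih]; simp
    have h2 : Tendsto (fun n => b * W n) atTop (𝓝 (b * w)) := tendsto_const_nhds.mul hw1
    simp only [h1] at h2
    exact (tendsto_nhds_unique tendsto_const_nhds h2).symm
  · intro p hps hp1 hp2
    have hpc : p * c = p := by
      calc p * c = (p * w₀) * c := by rw [hp1]
        _ = p * (w₀ * c) := mul_assoc _ _ _
        _ = p := by rw [hw, hp1]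
    have hcp : c * p = p := by
      have := congrArg star hpc
      simpa [hc.st, hps] using this
    have h1 : ∀ n, p * W n = p ∧ W n * p = p := by
      intro n
      induction n with
      | zero => exact ⟨hp1, hp2⟩
      | succ n ih =>
        obtain ⟨i1, i2⟩ := ih
        have j1 : star (W n) * p = p := by
          have := congrArg star i1
          simpa [hps] using this
        have j2 : p * star (W n) = p := by
          have := congrArg star i2
          simpa [hps] using this
        constructor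
        · rw [Ws, stp, mul_add, mul_smul_comm, ← mul_assoc, i1, mul_sub, hpc, ← mul_assoc, j2, i1]
          simp
        · rw [Ws, stp, add_mul, smul_mul_assoc, mul_assoc (W n), sub_mul, hcp, mul_assoc (star (W n)),
            i2, j1]
          simp
    have h2 : Tendsto (fun n => p * W n) atTop (𝓝 (p * w)) := tendsto_const_nhds.mul hw1
    have h3 : Tendsto (fun n => W n * p) atTop (𝓝 (w * p)) := hw1.mul tendsto_const_nhds
    simp only [fun n => (h1 n).1] at h2
    simp only [fun n => (h1 n).2] at h3
    exact ⟨(tendsto_nhds_unique tendsto_const_nhds h2).symm,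
      (tendsto_nhds_unique tendsto_const_nhds h3).symm⟩

end Pool.Agent.Helper94.AU
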