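import Pool.Agent.Helper94.AU.Alg

/-!
The algebra `B = A ⊗ K(H)`.
-/

open Filter Topology
open scoped ENNReal

namespace Pool.Agent.Helper94.AU

open ContinuousLinearMap

variable {X : Type} {E H E' : Type} [NormedAddCommGroup E] [InnerProductSpace ℂ E]
    [CompleteSpace E] [NormedAddCommGroup H] [InnerProductSpace ℂ H] [CompleteSpace H]
    [NormedAddCommGroup E'] [InnerProductSpace ℂ E'] [CompleteSpace E']
    (V : Vecs E) (S : Tens E H E')

/-- elementary tensors in the big algebra -/
noncomputable def TB (ξ η : H) (a : Big X E) : Big X E' :=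
  ⟨fun z => S.tt ξ η (a z), memℓp_infty ⟨‖ξ‖ * ‖η‖ * ‖a‖, by
    rintro _ ⟨z, rfl⟩
    change ‖S.tt ξ η (a z)‖ ≤ _
    rw [S.norm_tt]
    gcongr
    exact lp.norm_apply_le_norm ENNReal.top_ne_zero a z⟩⟩

theorem TB_apply (ξ η : H) (a : Big X E) (z : X × X × ℕ) : TB S ξ η a z = S.tt ξ η (a z) := rfl

theorem TB_add_left (ξ ξ' η : H) (a : Big X E) :
    TB S (ξ + ξ') η a = TB S ξ η a + TB S ξ' η a := by
  ext1; funext z; exact S.tt_add_left _ _ _ _

theorem TB_smul_left (c : ℂ) (ξ η : H) (a : Big X E) : TB S (c • ξ) η a = c • TB S ξ η a := by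
  ext1; funext z; exact S.tt_smul_left _ _ _ _

theorem TB_add (ξ η : H) (a b : Big X E) : TB S ξ η (a + b) = TB S ξ η a + TB S ξ η b := by
  ext1; funext z; exact S.tt_add _ _ _ _

theorem TB_smul (c : ℂ) (ξ η : H) (a : Big X E) : TB S ξ η (c • a) = c • TB S ξ η a := by
  ext1; funext z; exact S.tt_smul _ _ _ _

theorem TB_star (ξ η : H) (a : Big X E) : star (TB S ξ η a) = TB S η ξ (star a) := by
  ext1; funext z; exact S.tt_star _ _ _

theorem TB_mul (ξ η ζ ω : H) (a b : Big X E) :
    TB S ξ η a * TB S ζ ω b = (inner ℂ η ζ : ℂ) • TB S ξ ω (a * b) := by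
  ext1; funext z; exact S.tt_mul _ _ _ _ _ _

theorem norm_TB (ξ η : H) (a : Big X E) : ‖TB S ξ η a‖ = ‖ξ‖ * ‖η‖ * ‖a‖ := by
  rw [lp.norm_eq_ciSup, lp.norm_eq_ciSup, Real.mul_iSup_of_nonneg (by positivity)]
  congr 1
  funext z
  rw [TB_apply, S.norm_tt]

/-- the generators of `B` -/
def Gen (X : Type) : Set (Big X E') := {b | ∃ ξ η, ∃ a : AA X V, TB S ξ η (a : Big X E) = b}

/-- the span of the elementary tensors as a `*`-algebra -/
noncomputable def NB (X : Type) : NonUnitalStarSubalgebra ℂ (Big X E') where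
  carrier := Submodule.span ℂ (Gen V S X)
  zero_mem' := Submodule.zero_mem _
  add_mem' := fun ha hb => Submodule.add_mem _ ha hb
  smul_mem' := fun c _ ha => Submodule.smul_mem _ c ha
  mul_mem' := by
    intro a b ha hb
    change a * b ∈ Submodule.span ℂ (Gen V S X)
    induction ha using Submodule.span_induction with
    | mem a ha =>
      induction hb using Submodule.span_induction with
      | mem b hb =>
        obtain ⟨ξ, η, a, rfl⟩ := ha
        obtain ⟨ζ, ω, b, rfl⟩ := hb
        rw [TB_mul]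
        exact Submodule.smul_mem _ _ (Submodule.subset_span ⟨ξ, ω, a * b, rfl⟩)
      | zero => rw [mul_zero]; exact Submodule.zero_mem _
      | add x y _ _ hx hy => rw [mul_add]; exact Submodule.add_mem _ hx hy
      | smul c x _ hx => rw [mul_smul_comm]; exact Submodule.smul_mem _ _ hx
    | zero => rw [zero_mul]; exact Submodule.zero_mem _
    | add x y _ _ hx hy => rw [add_mul]; exact Submodule.add_mem _ hx hy
    | smul c x _ hx => rw [smul_mul_assoc]; exact Submodule.smul_mem _ _ hx
  star_mem' := by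
    intro a ha
    change star a ∈ Submodule.span ℂ (Gen V S X)
    change a ∈ Submodule.span ℂ (Gen V S X) at ha
    induction ha using Submodule.span_induction with
    | mem a ha =>
      obtain ⟨ξ, η, a, rfl⟩ := ha
      rw [TB_star]
      exact Submodule.subset_span ⟨η, ξ, star a, rfl⟩
    | zero => rw [star_zero]; exact Submodule.zero_mem _
    | add x y _ _ hx hy => rw [star_add]; exact Submodule.add_mem _ hx hy
    | smul c x _ hx => rw [star_smul]; exact Submodule.smul_mem _ _ hx

/-- The algebra `B`. -/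
abbrev BB (X : Type) : Type :=
  ((NB V S X).topologicalClosure : NonUnitalStarSubalgebra ℂ (Big X E'))

noncomputable instance instBB : NonUnitalCStarAlgebra (BB V S X) :=
  NonUnitalStarSubalgebra.nonUnitalCStarAlgebra _
    (h_closed := NonUnitalStarSubalgebra.isClosed_topologicalClosure _)

section coe

set_option maxHeartbeats 400000

theorem AA_coe_add (a b : AA X V) :
    ((a + b : AA X V) : Big X E) = (a : Big X E) + (b : Big X E) := rfl

theorem AA_coe_mul (a b : AA X V) :
    ((a * b : AA X V) : Big X E) = (a : Big X E) * (b : Big X E) := rfl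

theorem AA_coe_smul (c : ℂ) (a : AA X V) :
    ((c • a : AA X V) : Big X E) = c • (a : Big X E) := rfl

theorem AA_coe_star (a : AA X V) :
    ((star a : AA X V) : Big X E) = star (a : Big X E) := rfl

theorem AA_norm (a : AA X V) : ‖a‖ = ‖(a : Big X E)‖ := rfl

theorem BB_coe_add (a b : BB V S X) :
    ((a + b : BB V S X) : Big X E') = (a : Big X E') + (b : Big X E') := rfl

theorem BB_coe_mul (a b : BB V S X) :
    ((a * b : BB V S X) : Big X E') = (a : Big X E') * (b : Big X E') := rfl

theorem BB_coe_smul (c : ℂ) (a : BB V S X) :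
    ((c • a : BB V S X) : Big X E') = c • (a : Big X E') := rfl

theorem BB_coe_star (a : BB V S X) :
    ((star a : BB V S X) : Big X E') = star (a : Big X E') := rfl

theorem BB_norm (a : BB V S X) : ‖a‖ = ‖(a : Big X E')‖ := rfl

/-- elementary tensors in `B` -/
noncomputable def TT (ξ η : H) (a : AA X V) : BB V S X :=
  ⟨TB S ξ η (a : Big X E), (NonUnitalStarSubalgebra.le_topologicalClosure _)
    (Submodule.subset_span ⟨ξ, η, a, rfl⟩)⟩

theorem TT_coe (ξ η : H) (a : AA X V) : (TT V S ξ η a : Big X E') = TB S ξ η (a : Big X E) := rfl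

theorem TT_add_left (ξ ξ' η : H) (a : AA X V) :
    TT V S (ξ + ξ') η a = TT V S ξ η a + TT V S ξ' η a := by
  apply Subtype.ext
  rw [BB_coe_add, TT_coe, TT_coe, TT_coe]
  exact TB_add_left S ξ ξ' η (a : Big X E)

theorem TT_smul_left (c : ℂ) (ξ η : H) (a : AA X V) :
    TT V S (c • ξ) η a = c • TT V S ξ η a := by
  apply Subtype.ext
  rw [BB_coe_smul, TT_coe, TT_coe]
  exact TB_smul_left S c ξ η (a : Big X E)

theorem TT_add (ξ η : H) (a b : AA X V) :
    TT V S ξ η (a + b) = TT V S ξ η a + TT V S ξ η b := by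
  apply Subtype.ext
  rw [BB_coe_add, TT_coe, TT_coe, TT_coe, AA_coe_add]
  exact TB_add S ξ η (a : Big X E) (b : Big X E)

theorem TT_smul (c : ℂ) (ξ η : H) (a : AA X V) :
    TT V S ξ η (c • a) = c • TT V S ξ η a := by
  apply Subtype.ext
  rw [BB_coe_smul, TT_coe, TT_coe, AA_coe_smul]
  exact TB_smul S c ξ η (a : Big X E)

theorem TT_star (ξ η : H) (a : AA X V) : star (TT V S ξ η a) = TT V S η ξ (star a) := by
  apply Subtype.ext
  rw [BB_coe_star, TT_coe, TT_coe, AA_coe_star]
  exact TB_star S ξ η (a : Big X E)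

theorem TT_mul (ξ η ζ ω : H) (a b : AA X V) :
    TT V S ξ η a * TT V S ζ ω b = (inner ℂ η ζ : ℂ) • TT V S ξ ω (a * b) := by
  apply Subtype.ext
  rw [BB_coe_mul, BB_coe_smul, TT_coe, TT_coe, TT_coe, AA_coe_mul]
  exact TB_mul S ξ η ζ ω (a : Big X E) (b : Big X E)

theorem norm_TT (ξ η : H) (a : AA X V) : ‖TT V S ξ η a‖ = ‖ξ‖ * ‖η‖ * ‖a‖ := by
  rw [BB_norm, AA_norm, TT_coe]
  exact norm_TB S ξ η (a : Big X E)

end coe

/-- `B = A ⊗ K(H)` -/
noncomputable def stab (X : Type) : Stabilization (AA X V) H (BB V S X) where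
  T := TT V S
  add_left := TT_add_left V S
  smul_left := TT_smul_left V S
  add_arg := TT_add V S
  smul_arg := TT_smul V S
  star_T := TT_star V S
  mul_T := TT_mul V S
  norm_T := norm_TT V S
  dense := by
    intro b
    rw [closure_subtype]
    have h1 : (b : Big X E') ∈ closure (NB V S X : Set (Big X E')) := b.2
    refine closure_mono ?_ h1
    intro c hc
    change c ∈ Submodule.span ℂ (Gen V S X) at hc
    induction hc using Submodule.span_induction with
    | mem c hc =>
      obtain ⟨ξ, η, a, rfl⟩ := hc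
      exact ⟨_, Submodule.subset_span ⟨ξ, η, a, rfl⟩, rfl⟩
    | zero => exact ⟨0, Submodule.zero_mem _, rfl⟩
    | add x y _ _ hx hy =>
      obtain ⟨x', hx1, rfl⟩ := hx
      obtain ⟨y', hy1, rfl⟩ := hy
      exact ⟨x' + y', Submodule.add_mem _ hx1 hy1, rfl⟩
    | smul c x _ hx =>
      obtain ⟨x', hx1, rfl⟩ := hx
      exact ⟨c • x', Submodule.smul_mem _ c hx1, rfl⟩

end Pool.Agent.Helper94.AU
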