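import Mathlib

/-!
Abstract form of the Hilbert space `E' = E ⊗ H` and of the unit vectors `f_n → g` in `E`.
-/

open Filter Topology

namespace Pool.Agent.Helper94.AU

open ContinuousLinearMap

/-- Unit vectors `f n → g` in the plane of the orthonormal vectors `g, h`. -/
structure Vecs (E : Type) [NormedAddCommGroup E] [InnerProductSpace ℂ E] where
  f : ℕ → E
  g : E
  h : E
  norm_f : ∀ n, ‖f n‖ = 1
  norm_g : ‖g‖ = 1
  norm_h : ‖h‖ = 1
  inner_gh : (inner ℂ g h : ℂ) = 0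
  c : ℕ → ℂ
  s : ℕ → ℂ
  f_eq : ∀ n, f n = c n • g + s n • h
  s_ne : ∀ n, s n ≠ 0
  tendsto_f : Tendsto f atTop (𝓝 g)

/-- `E' = E ⊗ H`: `J ξ w = w ⊗ ξ = I w ξ`. -/
structure Tens (E H E' : Type) [NormedAddCommGroup E] [InnerProductSpace ℂ E] [CompleteSpace E]
    [NormedAddCommGroup H] [InnerProductSpace ℂ H] [CompleteSpace H]
    [NormedAddCommGroup E'] [InnerProductSpace ℂ E'] [CompleteSpace E'] where
  J : H → E →L[ℂ] E'
  I : E → H →L[ℂ] E'
  I_apply : ∀ w ξ, I w ξ = J ξ w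
  J_add : ∀ ξ η, J (ξ + η) = J ξ + J η
  J_smul : ∀ (z : ℂ) ξ, J (z • ξ) = z • J ξ
  norm_J : ∀ ξ w, ‖J ξ w‖ = ‖ξ‖ * ‖w‖
  adj_J_J : ∀ ξ η w, adjoint (J ξ) (J η w) = (inner ℂ ξ η : ℂ) • w
  adj_I_J : ∀ f w ξ, adjoint (I f) (J ξ w) = (inner ℂ f w : ℂ) • ξ

section pj

variable {E : Type} [NormedAddCommGroup E] [InnerProductSpace ℂ E] [CompleteSpace E]

/-- the projection onto the line of a unit vector -/
noncomputable def pj (f : E) : E →L[ℂ] E := InnerProductSpace.rankOne ℂ f f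

omit [CompleteSpace E] in
theorem pj_apply (f w : E) : pj f w = (inner ℂ f w : ℂ) • f := by
  simp [pj]

theorem pj_mul {f : E} (hf : ‖f‖ = 1) : pj f * pj f = pj f := by
  ext1 w
  change pj f (pj f w) = pj f w
  rw [pj_apply f w, map_smul, pj_apply, inner_self_eq_norm_sq_to_K, hf]
  simp

theorem pj_star (f : E) : star (pj f) = pj f := by
  rw [star_eq_adjoint, pj]
  simp

omit [CompleteSpace E] in
theorem pj_continuous : Continuous fun f : E => pj f := by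
  have h : (fun f : E => pj f) = fun f : E => (innerSL ℂ f).smulRight f := by
    funext f
    rfl
  rw [h]
  fun_prop

end pj

namespace Tens

variable {E H E' : Type} [NormedAddCommGroup E] [InnerProductSpace ℂ E] [CompleteSpace E]
    [NormedAddCommGroup H] [InnerProductSpace ℂ H] [CompleteSpace H]
    [NormedAddCommGroup E'] [InnerProductSpace ℂ E'] [CompleteSpace E'] (S : Tens E H E')

theorem adj_I_comp (f g : E) : adjoint (S.I f) ∘L S.I g = (inner ℂ f g : ℂ) • (1 : H →L[ℂ] H) := by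
  ext1 ξ
  simp [S.I_apply g ξ, S.adj_I_J]

/-- `m ⊗ |ξ⟩⟨η|` -/
noncomputable def tt (ξ η : H) (m : E →L[ℂ] E) : E' →L[ℂ] E' :=
  S.J ξ ∘L m ∘L adjoint (S.J η)

theorem tt_add_left (ξ ξ' η : H) (m : E →L[ℂ] E) :
    S.tt (ξ + ξ') η m = S.tt ξ η m + S.tt ξ' η m := by
  rw [tt, S.J_add]; rfl

theorem tt_smul_left (z : ℂ) (ξ η : H) (m : E →L[ℂ] E) :
    S.tt (z • ξ) η m = z • S.tt ξ η m := by
  rw [tt, S.J_smul]; rfl

theorem tt_add (ξ η : H) (m m' : E →L[ℂ] E) : S.tt ξ η (m + m') = S.tt ξ η m + S.tt ξ η m' := by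
  ext1 v
  simp [tt]

theorem tt_smul (z : ℂ) (ξ η : H) (m : E →L[ℂ] E) : S.tt ξ η (z • m) = z • S.tt ξ η m := by
  ext1 v
  simp [tt]

theorem tt_star (ξ η : H) (m : E →L[ℂ] E) : star (S.tt ξ η m) = S.tt η ξ (star m) := by
  rw [star_eq_adjoint, star_eq_adjoint, tt, tt, adjoint_comp, adjoint_comp, adjoint_adjoint]
  rfl

theorem tt_mul (ξ η ζ ω : H) (m m' : E →L[ℂ] E) :
    S.tt ξ η m * S.tt ζ ω m' = (inner ℂ η ζ : ℂ) • S.tt ξ ω (m * m') := by
  ext1 v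
  simp [tt, S.adj_J_J]

theorem norm_J_comp {F : Type} [NormedAddCommGroup F] [InnerProductSpace ℂ F] (ξ : H)
    (s : F →L[ℂ] E) : ‖S.J ξ ∘L s‖ = ‖ξ‖ * ‖s‖ := by
  apply le_antisymm
  · apply opNorm_le_bound _ (by positivity)
    intro v
    rw [comp_apply, S.norm_J, mul_assoc]
    gcongr
    exact s.le_opNorm v
  · rcases eq_or_ne ξ 0 with rfl | hξ
    · rw [norm_zero, zero_mul]
      exact norm_nonneg _
    · have h0 : 0 < ‖ξ‖ := norm_pos_iff.mpr hξ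
      rw [← le_div_iff₀' h0]
      apply opNorm_le_bound _ (by positivity)
      intro v
      have h1 := (S.J ξ ∘L s).le_opNorm v
      rw [comp_apply, S.norm_J] at h1
      rw [div_mul_eq_mul_div, le_div_iff₀ h0]
      linarith

theorem norm_tt (ξ η : H) (m : E →L[ℂ] E) : ‖S.tt ξ η m‖ = ‖ξ‖ * ‖η‖ * ‖m‖ := by
  rw [tt, S.norm_J_comp, mul_assoc]
  congr 1
  have h1 : ‖m ∘L adjoint (S.J η)‖ = ‖adjoint (m ∘L adjoint (S.J η))‖ :=
    (LinearIsometryEquiv.norm_map _ _).symm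
  rw [h1, adjoint_comp, adjoint_adjoint, S.norm_J_comp]
  congr 1
  exact LinearIsometryEquiv.norm_map _ _

theorem tt_pj (ξ η : H) (f : E) :
    S.tt ξ η (pj f) = S.I f ∘L (InnerProductSpace.rankOne ℂ ξ η) ∘L adjoint (S.I f) := by
  ext1 v
  have h1 : (inner ℂ f (adjoint (S.J η) v) : ℂ) = inner ℂ η (adjoint (S.I f) v) := by
    rw [adjoint_inner_right, adjoint_inner_right, S.I_apply]
  simp [tt, pj_apply, h1, S.I_apply, S.J_smul]

/-- the projection `|g⟩⟨g| ⊗ 1` -/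
noncomputable def E0 (g : E) : E' →L[ℂ] E' := S.I g ∘L adjoint (S.I g)

theorem E0_tt (g : E) (ξ η : H) (m : E →L[ℂ] E) :
    S.E0 g * S.tt ξ η m = S.tt ξ η (pj g * m) := by
  ext1 v
  simp [tt, E0, S.adj_I_J, S.I_apply, pj_apply, S.J_smul]

end Tens

end Pool.Agent.Helper94.AU
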